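import Mathlib

namespace Pool.Agent.Lib.MP_19b6b2_an.W

open Real Finset

/-- Positive semidefinite kernels on the natural numbers. -/
def PsdN (M : ℕ → ℕ → ℝ) : Prop :=
  ∀ (ι : Type) (S : Finset ι) (x : ι → ℕ) (v : ι → ℝ),
    0 ≤ ∑ a ∈ S, ∑ b ∈ S, M (x a) (x b) * v a * v b

noncomputable def avg (L : ℕ) (f : ℕ → ℕ → ℝ) : ℝ :=
  (∑ i ∈ range L, ∑ j ∈ range L, f i j) / (L : ℝ) ^ 2

lemma avg_sub (L : ℕ) (f g : ℕ → ℕ → ℝ) :
    avg L f - avg L g = avg L fun i j => f i j - g i j := by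
  simp only [avg, sum_sub_distrib, sub_div]

lemma le_avg {L : ℕ} (hL : 0 < L) {f : ℕ → ℕ → ℝ} {c : ℝ}
    (h : ∀ i j, i < L → j < L → c ≤ f i j) : c ≤ avg L f := by
  have hL' : (0 : ℝ) < L := by exact_mod_cast hL
  rw [avg, le_div_iff₀ (by positivity)]
  calc c * (L : ℝ) ^ 2 = ∑ i ∈ range L, ∑ j ∈ range L, c := by simp; ring
    _ ≤ _ := sum_le_sum fun i hi => sum_le_sum fun j hj =>
        h i j (mem_range.1 hi) (mem_range.1 hj)

lemma abs_avg_le {L : ℕ} (hL : 0 < L) {f : ℕ → ℕ → ℝ} {c : ℝ}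
    (h : ∀ i j, i < L → j < L → |f i j| ≤ c) : |avg L f| ≤ c := by
  have h1 : -c ≤ avg L f := le_avg hL fun i j hi hj => (abs_le.1 (h i j hi hj)).1
  have h2 : -c ≤ avg L fun i j => -f i j :=
    le_avg hL fun i j hi hj => by linarith [(abs_le.1 (h i j hi hj)).2]
  have h3 : (avg L fun i j => -f i j) = -avg L f := by simp only [avg, sum_neg_distrib, neg_div]
  rw [abs_le]; constructor <;> linarith

theorem avg_kernel {t : ℝ} (ht0 : 0 < t) (ht1 : t ≤ 1) (M : ℕ → ℕ → ℝ) (σ : ℕ → ℝ) (B : ℝ)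
    (L : ℕ) (hL : 2 ≤ t * L) (hσ : ∀ n, 0 < σ n) (hanti : Antitone σ) (hB : 0 ≤ B)
    (hs : ∀ k n, M k n = M n k) (hp : PsdN M)
    (h1 : ∀ n k, |M n k - M n (k + 1)| ≤ σ n * σ k) (h2 : ∀ n, |M n 0| ≤ B * σ n)
    (h5 : ∀ j k n, j ≤ k → k ≤ j + L → j ≤ n → n ≤ j + L →
      t * σ j ^ 2 ≤ M k n - M (k + 1) (n + 1)) :
    ∃ (G : ℕ → ℕ → ℝ) (R : ℕ → ℝ) (C : ℝ), 0 < C ∧ (∀ k, 0 < R k) ∧ (∀ k n, G k n = G n k) ∧
      (∀ (N : ℕ) (u : ℕ → ℝ), 0 ≤ ∑ k ∈ range N, ∑ n ∈ range N, G k n * u k * u n) ∧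
      (∀ n, G n (n + 1) = G (n + 1) (n + 1)) ∧ (∀ n, G (n + 1) (n + 1) = G n n - R n ^ 2) ∧
      (∀ n k, t * |G n k - G n (k + 1)| ≤ R n * R k) ∧ (∀ n, t * |G n 0| ≤ C * R n) ∧
      G 0 0 ≤ C ^ 2 ∧ ∀ m : ℕ, t * m * σ (2 * m) ^ 2 ≤ G m m := by
  classical
  have hL0 : 0 < L := by
    rcases Nat.eq_zero_or_pos L with h | h
    · subst h; simp at hL; linarith
    · exact h
  have hL' : (0 : ℝ) < L := by exact_mod_cast hL0
  set A : ℕ → ℕ → ℝ := fun k n => avg L fun i j => M (k + i) (n + j) with hA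
  have As : ∀ k n, A k n = A n k := by
    intro k n
    simp only [hA, avg]
    rw [sum_comm]
    congr 1
    exact sum_congr rfl fun i _ => sum_congr rfl fun j _ => hs _ _
  have A1 : ∀ n k, |A n k - A n (k + 1)| ≤ σ n * σ k := by
    intro n k
    simp only [hA]
    rw [avg_sub]
    refine abs_avg_le hL0 fun i j _ _ => ?_
    rw [show k + 1 + j = k + j + 1 by ring]
    exact (h1 _ _).trans (mul_le_mul (hanti (by omega)) (hanti (by omega)) (hσ _).le (hσ _).le)
  have M2 : ∀ n k, |M n k| ≤ (B + k * σ 0) * σ n := by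
    intro n k
    induction k with
    | zero => simpa using h2 n
    | succ k ih =>
      have e1 := h1 n k
      have e2 := mul_le_mul_of_nonneg_left (hanti (Nat.zero_le k)) (hσ n).le
      have e3 := abs_sub_abs_le_abs_sub (M n (k + 1)) (M n k)
      rw [abs_sub_comm] at e3
      push_cast
      linarith
  set B1 := B + (L + 1) * σ 0 with hB1
  have hB1' : 0 < B1 := by have := hσ 0; positivity
  have A2 : ∀ n k, k ≤ 1 → |A n k| ≤ B1 * σ n := by
    intro n k hk
    refine abs_avg_le hL0 fun i j _ hj => (M2 _ _).trans ?_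
    have e1 : ((k + j : ℕ) : ℝ) ≤ L + 1 := by exact_mod_cast (by omega : k + j ≤ L + 1)
    have e2 := hσ 0
    refine mul_le_mul ?_ (hanti (by omega)) (hσ _).le hB1'.le
    simp only [hB1]; gcongr
  have A5 : ∀ n, t * σ n ^ 2 ≤ A n n - A (n + 1) (n + 1) := by
    intro n
    simp only [hA]
    rw [avg_sub]
    refine le_avg hL0 fun i j hi hj => ?_
    rw [show n + 1 + i = n + i + 1 by ring, show n + 1 + j = n + j + 1 by ring]
    exact h5 n _ _ (by omega) (by omega) (by omega) (by omega)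
  have A6 : ∀ n, t * σ n ^ 2 ≤ A (n + 1) n - A (n + 2) (n + 1) := by
    intro n
    simp only [hA]
    rw [avg_sub]
    refine le_avg hL0 fun i j hi hj => ?_
    rw [show n + 2 + i = n + 1 + i + 1 by ring, show n + 1 + j = n + j + 1 by ring]
    exact h5 n _ _ (by omega) (by omega) (by omega) (by omega)
  have A7 : ∀ n, (A n n - A n (n + 1)) - (A (n + 1) n - A (n + 1) (n + 1)) ≤ t * σ n ^ 2 := by
    intro n
    set e : ℕ → ℝ := fun a => ∑ j ∈ range L, (M a (n + j) - M a (n + 1 + j)) with he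
    have e1 : ∀ a, A a n - A a (n + 1) = (∑ i ∈ range L, e (a + i)) / (L : ℝ) ^ 2 := by
      intro a; simp only [hA]; rw [avg_sub]; rfl
    have e2 : ∀ a, n ≤ a → |e a| ≤ L * σ n ^ 2 := by
      intro a ha
      refine (abs_sum_le_sum_abs _ _).trans ?_
      calc _ ≤ ∑ j ∈ range L, σ n ^ 2 := sum_le_sum fun j _ => by
            rw [show n + 1 + j = n + j + 1 by ring, sq]
            exact (h1 _ _).trans (mul_le_mul (hanti ha) (hanti (by omega)) (hσ _).le (hσ _).le)
        _ = _ := by simp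
    have e3 : ∑ i ∈ range L, e (n + i) - ∑ i ∈ range L, e (n + 1 + i) = e n - e (n + L) := by
      rw [← sum_sub_distrib]
      have := sum_range_sub' (fun i => e (n + i)) L
      simp only [add_zero] at this
      rw [← this]
      exact sum_congr rfl fun i _ => by rw [show n + 1 + i = n + (i + 1) by ring]
    rw [e1, e1, ← sub_div, e3, div_le_iff₀ (by positivity)]
    have e4 := abs_le.1 (e2 n le_rfl)
    have e5 := abs_le.1 (e2 (n + L) (by omega))
    have e6 := mul_le_mul_of_nonneg_right hL (show 0 ≤ L * σ n ^ 2 by positivity)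
    nlinarith
  set ε : ℕ → ℝ := fun n => A (n + 1) n - A (n + 1) (n + 1) with hε
  have hε0 : ∀ n, 0 ≤ ε n := by
    intro n
    have e1 := A5 n
    have e2 := A7 n
    rw [As n (n + 1)] at e2
    simp only [hε]; linarith
  set G : ℕ → ℕ → ℝ := fun k n => A (k + 1) (n + 1) + if k = n then ε k else 0 with hG
  have Gd : ∀ n, G n n = A (n + 1) n := fun n => by simp [hG, hε]
  have Go : ∀ k n, k ≠ n → G k n = A (k + 1) (n + 1) := fun k n h => by simp [hG, h]
  set R : ℕ → ℝ := fun n => √(A (n + 1) n - A (n + 2) (n + 1)) with hR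
  have hq : ∀ n, 0 < t * σ n ^ 2 := fun n => by have := hσ n; positivity
  have R2 : ∀ n, R n ^ 2 = A (n + 1) n - A (n + 2) (n + 1) :=
    fun n => sq_sqrt (by linarith [hq n, A6 n])
  have R0 : ∀ n, 0 < R n := fun n => sqrt_pos.2 (by linarith [hq n, A6 n])
  have R1 : ∀ n, √t * σ n ≤ R n := fun n => by
    refine le_sqrt_of_sq_le ?_
    rw [mul_pow, sq_sqrt ht0.le]; exact A6 n
  have hst : √t * √t = t := mul_self_sqrt ht0.le
  have hst0 : 0 < √t := sqrt_pos.2 ht0
  have hst1 : √t ≤ 1 := sqrt_le_one.2 ht1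
  have Gs : ∀ k n, G k n = G n k := by
    intro k n
    by_cases h : k = n
    · rw [h]
    · rw [Go k n h, Go n k (Ne.symm h), As]
  have Gp : ∀ (N : ℕ) (u : ℕ → ℝ), 0 ≤ ∑ k ∈ range N, ∑ n ∈ range N, G k n * u k * u n := by
    intro N u
    have e1 := hp (ℕ × ℕ) (range N ×ˢ range L) (fun a => a.1 + 1 + a.2) (fun a => u a.1)
    have e2 : ∑ k ∈ range N, ∑ n ∈ range N, A (k + 1) (n + 1) * u k * u n
        = (∑ a ∈ range N ×ˢ range L, ∑ b ∈ range N ×ˢ range L,
          M (a.1 + 1 + a.2) (b.1 + 1 + b.2) * u a.1 * u b.1) / (L : ℝ) ^ 2 := by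
      simp only [sum_product, hA, avg, sum_div, sum_mul]
      refine sum_congr rfl fun k _ => ?_
      rw [sum_comm]
      exact sum_congr rfl fun i _ => sum_congr rfl fun n _ => sum_congr rfl fun j _ => by ring
    have e3 : ∑ k ∈ range N, ∑ n ∈ range N, G k n * u k * u n
        = ∑ k ∈ range N, ∑ n ∈ range N, A (k + 1) (n + 1) * u k * u n
          + ∑ k ∈ range N, ε k * u k ^ 2 := by
      rw [← sum_add_distrib]
      refine sum_congr rfl fun k hk => ?_
      simp only [hG, add_mul, sum_add_distrib, ite_mul, zero_mul, sum_ite_eq, hk, if_true]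
      ring
    rw [e3, e2]
    exact add_nonneg (div_nonneg e1 (sq_nonneg _))
      (sum_nonneg fun k _ => mul_nonneg (hε0 k) (sq_nonneg _))
  have G1 : ∀ n, G n (n + 1) = G (n + 1) (n + 1) := fun n => by
    rw [Go n (n + 1) (by omega), Gd, As]
  have G2 : ∀ n, G (n + 1) (n + 1) = G n n - R n ^ 2 := fun n => by
    rw [Gd, Gd, R2]; ring
  refine ⟨G, R, B1 + B1 * σ 0 + 1, by have := hσ 0; positivity, R0, Gs, Gp, G1, G2,
    fun n k => ?_, fun n => ?_, ?_, fun m => ?_⟩
  · by_cases h : n = k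
    · subst h
      rw [G1, G2, sub_sub_cancel, abs_of_nonneg (sq_nonneg _), ← sq]
      exact mul_le_of_le_one_left (sq_nonneg _) ht1
    by_cases h' : n = k + 1
    · subst h'
      rw [Gs, G1, sub_self, abs_zero, mul_zero]
      exact (mul_pos (R0 _) (R0 _)).le
    rw [Go n k h, Go n (k + 1) h']
    calc _ ≤ t * (σ (n + 1) * σ (k + 1)) := mul_le_mul_of_nonneg_left (A1 _ _) ht0.le
      _ ≤ t * (σ n * σ k) := mul_le_mul_of_nonneg_left (mul_le_mul (hanti (by omega))
          (hanti (by omega)) (hσ _).le (hσ _).le) ht0.le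
      _ = (√t * σ n) * (√t * σ k) := by linear_combination (-(σ n * σ k)) * hst
      _ ≤ _ := mul_le_mul (R1 n) (R1 k) (mul_pos hst0 (hσ k)).le (R0 n).le
  · have e1 : |G n 0| ≤ B1 * σ n := by
      have e2 := mul_le_mul_of_nonneg_left (hanti (Nat.le_succ n)) hB1'.le
      by_cases h : n = 0
      · subst h; rw [Gd]; exact (A2 _ _ (by omega)).trans e2
      · rw [Go n 0 h]; exact (A2 _ _ (by omega)).trans e2
    have e2 : t * σ n ≤ R n := by
      refine le_trans ?_ (R1 n)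
      exact mul_le_mul_of_nonneg_right (by nlinarith) (hσ n).le
    calc _ ≤ t * (B1 * σ n) := mul_le_mul_of_nonneg_left e1 ht0.le
      _ = B1 * (t * σ n) := by ring
      _ ≤ B1 * R n := mul_le_mul_of_nonneg_left e2 hB1'.le
      _ ≤ _ := mul_le_mul_of_nonneg_right (by nlinarith [hσ 0]) (R0 n).le
  · rw [Gd]
    have e1 := (abs_le.1 (A2 1 0 (by omega))).2
    have e2 := mul_le_mul_of_nonneg_left (hanti (Nat.zero_le 1)) hB1'.le
    have e3 := mul_pos hB1' (hσ 0)
    simp only [zero_add]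
    nlinarith
  · have e1 : ∀ j : ℕ, j ≤ m → G (m + j) (m + j) + t * j * σ (2 * m) ^ 2 ≤ G m m := by
      intro j
      induction j with
      | zero => simp
      | succ j ih =>
        intro hj
        have f1 := ih (by omega)
        have f2 := G2 (m + j)
        have f3 := A6 (m + j)
        rw [← R2] at f3
        have f4 : σ (2 * m) ^ 2 ≤ σ (m + j) ^ 2 :=
          pow_le_pow_left₀ (hσ _).le (hanti (by omega)) 2
        have f5 := mul_le_mul_of_nonneg_left f4 ht0.le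
        rw [← add_assoc]
        push_cast
        linarith
    have e2 : 0 ≤ G (m + m) (m + m) := by
      have := Gp (m + m + 1) fun k => if k = m + m then 1 else 0
      simpa using this
    linarith [e1 m le_rfl]

end Pool.Agent.Lib.MP_19b6b2_an.W
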