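import Mathlib
import Pool.Agent.Lib.MP_19b6b2_an.Defs

namespace Pool.Agent.Lib.MP_19b6b2_an.W

open scoped InnerProductSpace

variable {H : Type*} [NormedAddCommGroup H] [InnerProductSpace ℝ H]

/-- Every pick follows the weak greedy rule with weakness parameter `t`. -/
def IsWeakRealization (t : ℝ) (D : Set H) (f : H) (φ : ℕ → H) : Prop :=
  ∀ m : ℕ, φ m ∈ D ∧
    ∀ g ∈ D, t * |⟪f - approx f φ m, g⟫_ℝ| ≤ |⟪f - approx f φ m, φ m⟫_ℝ|

/-- The worst error of the weak greedy algorithm after `m` steps, over all dictionaries, all `f`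
in `A_1(D)` and all realizations. -/
noncomputable def weakError (H : Type*) [NormedAddCommGroup H] [InnerProductSpace ℝ H]
    (t : ℝ) (m : ℕ) : ℝ :=
  sSup {e | ∃ (D : Set H) (f : H) (φ : ℕ → H),
    IsDictionary D ∧ f ∈ A1 D ∧ IsWeakRealization t D f φ ∧ e = ‖f - approx f φ m‖}

end Pool.Agent.Lib.MP_19b6b2_an.W
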