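import Mathlib
import Pool.Agent.Lib.MP_19b6b2_an.Hilbert
import Pool.Agent.Lib.MP_19b6b2_an.W.Defs

namespace Pool.Agent.Lib.MP_19b6b2_an.W

open Real Finset Filter Topology
open scoped InnerProductSpace

variable {H : Type*} [NormedAddCommGroup H] [InnerProductSpace ℝ H]

theorem wga_lower (hH : ¬ FiniteDimensional ℝ H) {τ : ℝ} (hτ1 : τ ≤ 1)
    (G : ℕ → ℕ → ℝ) (R : ℕ → ℝ) (B : ℝ) (hB : 0 < B) (hR : ∀ k, 0 < R k)
    (hs : ∀ k n, G k n = G n k)
    (hp : ∀ (N : ℕ) (u : ℕ → ℝ), 0 ≤ ∑ k ∈ range N, ∑ n ∈ range N, G k n * u k * u n)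
    (hsucc : ∀ n, G n (n + 1) = G (n + 1) (n + 1))
    (has : ∀ n, G (n + 1) (n + 1) = G n n - R n ^ 2)
    (hbd : ∀ n k, τ * |G n k - G n (k + 1)| ≤ R n * R k)
    (hz0 : ∀ n, τ * |G n 0| ≤ B * R n)
    (h0 : G 0 0 ≤ B ^ 2) (m : ℕ) :
    ∃ (D : Set H) (f : H) (φ : ℕ → H), IsDictionary D ∧ f ∈ A1 D ∧ IsWeakRealization τ D f φ ∧
      ‖f - approx f φ m‖ ^ 2 = G m m / B ^ 2 := by
  classical
  obtain ⟨v, e, he, hve, hv⟩ := exists_gram hH (fun k n => G k n / B ^ 2)
    (fun k n => by rw [hs]) (m + 1) fun u => by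
      have := div_nonneg (hp (m + 1) u) (sq_nonneg (B))
      refine this.trans (le_of_eq ?_)
      simp only [sum_div]
      exact sum_congr rfl fun k _ => sum_congr rfl fun n _ => by ring
  set ρ : ℕ → ℝ := fun k => R k / B with hρ
  have hρ0 : ∀ k, 0 < ρ k := fun k => div_pos (hR k) hB
  set ψ : ℕ → H := fun k => (ρ k)⁻¹ • (v k - v (k + 1)) with hψ
  set t := √(1 - G 0 0 / B ^ 2) with ht
  have ht2 : t ^ 2 = 1 - G 0 0 / B ^ 2 :=
    sq_sqrt (sub_nonneg.2 ((div_le_one (by positivity)).2 h0))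
  have hvψ : ∀ n k, n ≤ m → k < m →
      ⟪v n, ψ k⟫_ℝ = (G n k - G n (k + 1)) / (R k * B) := by
    intro n k hn hk
    simp only [hψ, hρ]
    rw [real_inner_smul_right, inner_sub_right, hv n k (by omega) (by omega),
      hv n (k + 1) (by omega) (by omega)]
    have := (hR k).ne'
    field_simp
  have hvψ' : ∀ k, k < m → ⟪v k, ψ k⟫_ℝ = ρ k := by
    intro k hk
    rw [hvψ k k hk.le hk, hsucc, has]
    have := (hR k).ne'
    simp only [hρ]; field_simp; ring
  have hψ1 : ∀ k, k < m → ‖ψ k‖ = 1 := by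
    intro k hk
    have e1 : ⟪v (k + 1), ψ k⟫_ℝ = 0 := by
      rw [hvψ (k + 1) k hk hk, hs, hsucc]; simp
    have e2 : ⟪ψ k, ψ k⟫_ℝ = 1 := by
      conv_lhs => rw [show ⟪ψ k, ψ k⟫_ℝ = ⟪(ρ k)⁻¹ • (v k - v (k + 1)), ψ k⟫_ℝ from rfl]
      rw [real_inner_smul_left, inner_sub_left, hvψ' k hk, e1, sub_zero,
        inv_mul_cancel₀ (hρ0 k).ne']
    rw [real_inner_self_eq_norm_sq] at e2
    nlinarith [norm_nonneg (ψ k)]
  have hg1 : ∀ c : ℝ, c ^ 2 = t ^ 2 → ‖v 0 + c • e‖ = 1 := by
    intro c hc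
    have : ‖v 0 + c • e‖ ^ 2 = 1 := by
      rw [norm_add_sq_real, real_inner_smul_right, hve, norm_smul, he, mul_one, norm_eq_abs,
        sq_abs, ← real_inner_self_eq_norm_sq, hv 0 0 (by omega) (by omega), hc, ht2]
      ring
    nlinarith [norm_nonneg (v 0 + c • e)]
  set F : Finset H := insert (v 0 + t • e) (insert (v 0 + (-t) • e) ((range m).image ψ)) with hF
  set V : Submodule ℝ H := Submodule.span ℝ (F : Set H) with hV
  have : FiniteDimensional ℝ V := FiniteDimensional.span_finset ℝ F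
  set D : Set H := (F : Set H) ∪ {g | g ∈ Vᗮ ∧ ‖g‖ = 1} with hD
  have hFne : F.Nonempty := insert_nonempty _ _
  choose nx hnx hnx' using fun x : H => exists_max_image F (fun g => |⟪x, g⟫_ℝ|) hFne
  have hp1 : v 0 + t • e ∈ F := mem_insert_self _ _
  have hp2 : v 0 + (-t) • e ∈ F := mem_insert_of_mem (mem_insert_self _ _)
  have hp3 : ∀ k, k < m → ψ k ∈ F := fun k hk =>
    mem_insert_of_mem (mem_insert_of_mem (mem_image_of_mem _ (mem_range.2 hk)))
  have hv0 : v 0 = (1 / 2 : ℝ) • (v 0 + t • e) + (1 / 2 : ℝ) • (v 0 + (-t) • e) := by module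
  set p : ℕ → H → H := fun k x => if k < m then ψ k else nx x with hpd
  have hpF : ∀ k x, p k x ∈ F := fun k x => by
    simp only [hpd]; split_ifs with hk; exacts [hp3 k hk, hnx x]
  have hpa : ∀ k x, k < m → p k x = ψ k := fun k x hk => if_pos hk
  have hpb : ∀ k x, ¬ k < m → p k x = nx x := fun k x hk => if_neg hk
  have hRV : ∀ k, drive (v 0) p k ∈ V := by
    intro k
    induction k with
    | zero =>
      change v 0 ∈ V
      rw [hv0]
      exact V.add_mem (V.smul_mem _ (Submodule.subset_span hp1))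
        (V.smul_mem _ (Submodule.subset_span hp2))
    | succ k ih => exact V.sub_mem ih (V.smul_mem _ (Submodule.subset_span (hpF _ _)))
  have hRv : ∀ k, k ≤ m → drive (v 0) p k = v k := by
    intro k
    induction k with
    | zero => intro _; rfl
    | succ k ih =>
      intro hk
      have hk' : k < m := hk
      rw [drive, ih hk'.le, hpa k _ hk', hvψ' k hk']
      simp only [hψ]
      rw [smul_smul, mul_inv_cancel₀ (hρ0 k).ne']; simp
  refine ⟨D, v 0, fun k => p k (drive (v 0) p k), ⟨?_, ?_⟩, ?_, ?_, ?_⟩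
  · rintro g (hg | hg)
    · simp only [hF, coe_insert, coe_image, Set.mem_insert_iff, Set.mem_image, mem_coe,
        mem_range] at hg
      rcases hg with rfl | rfl | ⟨k, hk, rfl⟩
      exacts [hg1 _ rfl, hg1 _ (by ring), hψ1 k hk]
    · exact hg.2
  · have : Submodule.span ℝ D = ⊤ := by
      rw [eq_top_iff, ← Submodule.sup_orthogonal_of_hasOrthogonalProjection (K := V)]
      refine sup_le (Submodule.span_mono Set.subset_union_left) fun x hx => ?_
      by_cases hx0 : x = 0
      · rw [hx0]; exact Submodule.zero_mem _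
      have hn : ‖x‖ ≠ 0 := norm_ne_zero_iff.2 hx0
      have : x = ‖x‖ • (‖x‖⁻¹ • x) := by rw [smul_smul, mul_inv_cancel₀ hn, one_smul]
      rw [this]
      refine Submodule.smul_mem _ _ (Submodule.subset_span (Or.inr ⟨Submodule.smul_mem _ _ hx, ?_⟩))
      rw [norm_smul, norm_inv, norm_norm, inv_mul_cancel₀ hn]
    rw [this]; simp
  · refine subset_closure ⟨2, ![1 / 2, 1 / 2], ![v 0 + t • e, v 0 + (-t) • e], ?_, ?_, ?_⟩
    · intro i; fin_cases i
      exacts [Or.inl hp1, Or.inl hp2]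
    · simp [Fin.sum_univ_two]; norm_num
    · simpa [Fin.sum_univ_two] using hv0
  · intro k
    rw [drive_eq]
    refine ⟨Or.inl (hpF _ _), ?_⟩
    rintro g (hg | hg)
    · by_cases hk : k < m
      · simp only [hpa k _ hk, hRv k hk.le]
        rw [hvψ' k hk, abs_of_pos (hρ0 k)]
        have hz : ∀ c : ℝ, τ * |⟪v k, v 0 + c • e⟫_ℝ| ≤ ρ k := by
          intro c
          rw [inner_add_right, real_inner_smul_right, hve, mul_zero, add_zero,
            hv k 0 (by omega) (by omega), abs_div, abs_of_pos (by positivity : 0 < B ^ 2),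
            ← mul_div_assoc, div_le_iff₀ (by positivity)]
          refine (hz0 k).trans (le_of_eq ?_)
          simp only [hρ]; field_simp
        simp only [hF, coe_insert, coe_image, Set.mem_insert_iff, Set.mem_image, mem_coe,
          mem_range] at hg
        rcases hg with rfl | rfl | ⟨j, hj, rfl⟩
        · exact hz _
        · exact hz _
        · have := hR j
          rw [hvψ k j hk.le hj, abs_div, abs_of_pos (by positivity : 0 < R j * B),
            ← mul_div_assoc, div_le_iff₀ (by positivity)]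
          refine (hbd k j).trans (le_of_eq ?_)
          simp only [hρ]; field_simp
      · simp only [hpb k _ hk]
        exact (mul_le_of_le_one_left (abs_nonneg _) hτ1).trans (hnx' _ g hg)
    · rw [Submodule.inner_right_of_mem_orthogonal (hRV k) hg.1, abs_zero, mul_zero]
      exact abs_nonneg _
  · rw [drive_eq, hRv m le_rfl, ← real_inner_self_eq_norm_sq, hv m m (by omega) (by omega)]

end Pool.Agent.Lib.MP_19b6b2_an.W
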