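import Mathlib
import Pool.Agent.Lib.MP_19b6b2_an.Seq

namespace Pool.Agent.Lib.MP_19b6b2_an.W

open Real Finset

/-- The kernel for `c ≤ b`. -/
noncomputable def lo (s θ b c : ℝ) : ℝ :=
  if c ≤ θ * b then θ * c * b ^ (-(s + 1))
  else (s + 2) / (s + 1) * c ^ (-s) - θ * b * c ^ (-(s + 1))

/-- The scale invariant extremal kernel. -/
noncomputable def gk (s θ b c : ℝ) : ℝ := lo s θ (max b c) (min b c)

lemma gk_symm (s θ b c : ℝ) : gk s θ b c = gk s θ c b := by
  unfold gk; rw [max_comm, min_comm]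

lemma gk_of_le (s θ : ℝ) {b c : ℝ} (h : c ≤ b) : gk s θ b c = lo s θ b c := by
  unfold gk; rw [max_eq_left h, min_eq_right h]

structure Pa (s θ : ℝ) : Prop where
  hs : 0 < s
  hθ : 0 < θ
  he : θ ^ (-(s + 2)) = s + 1
  hlo : s * (s + 2) - 1 ≤ θ * (s + 1) ^ 2

lemma glue {f : ℝ → ℝ} {K a l : ℝ}
    (h1 : ∀ x y, l ≤ x → x ≤ y → y ≤ a → |f x - f y| ≤ K * (y - x))
    (h2 : ∀ x y, a ≤ x → x ≤ y → |f x - f y| ≤ K * (y - x)) :
    ∀ x y, l ≤ x → x ≤ y → |f x - f y| ≤ K * (y - x) := by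
  intro x y hx hxy
  rcases le_total y a with h | h
  · exact h1 x y hx hxy h
  rcases le_total a x with h' | h'
  · exact h2 x y h' hxy
  have e1 := h1 x a hx h' le_rfl
  have e2 := h2 a y le_rfl h
  have e3 := abs_sub_le (f x) (f a) (f y)
  linarith

namespace Pa

variable {s θ : ℝ} (h : Pa s θ)
include h

lemma lt_one : θ < 1 := by
  by_contra hc
  have := rpow_le_one_of_one_le_of_nonpos (not_lt.1 hc) (show -(s + 2) ≤ 0 by linarith [h.hs])
  rw [h.he] at this
  linarith [h.hs]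

lemma e1 : θ ^ (-(s + 1)) = (s + 1) * θ := by
  have := rpow_neg_succ h.hθ (s + 1)
  rw [show s + 1 + 1 = s + 2 by ring, h.he, eq_div_iff h.hθ.ne'] at this
  exact this.symm

lemma e0 : θ ^ (-s) = (s + 1) * θ ^ 2 := by
  have := rpow_neg_succ h.hθ s
  rw [h.e1, eq_div_iff h.hθ.ne'] at this
  rw [← this]; ring

lemma lo_out {b c : ℝ} (hc : c ≤ θ * b) : lo s θ b c = θ * c * b ^ (-(s + 1)) := by
  cases h; exact if_pos hc

lemma lo_band {b c : ℝ} (hb : 0 < b) (hc : θ * b ≤ c) :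
    lo s θ b c = (s + 2) / (s + 1) * c ^ (-s) - θ * b * c ^ (-(s + 1)) := by
  rcases hc.eq_or_lt with hc | hc
  · subst hc
    have := h.hs
    rw [h.lo_out le_rfl, mul_rpow h.hθ.le hb.le, mul_rpow h.hθ.le hb.le, h.e0, h.e1,
      rpow_neg_succ hb]
    field_simp; ring
  · exact if_neg (not_le.2 hc)

theorem lip {β : ℝ} (hβ : 0 < β) : ∀ x y, 0 ≤ x → x ≤ y →
    |gk s θ β x - gk s θ β y| ≤ θ * β ^ (-(s + 1)) * (y - x) := by
  have hθ := h.hθ
  have hθ1 := h.lt_one
  have hs := h.hs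
  have hK : 0 < θ * β ^ (-(s + 1)) := by positivity
  have hθβ : θ * β ≤ β := by nlinarith
  refine glue (a := θ * β) (fun x y _ hxy hy => ?_) (glue (a := β) (fun x y hx hxy hy => ?_)
    (glue (a := β / θ) (fun x y hx hxy hy => ?_) fun x y hx hxy => ?_))
  · rw [gk_of_le _ _ (by linarith), gk_of_le _ _ (by linarith), h.lo_out (by linarith),
      h.lo_out hy, abs_sub_comm, ← sub_mul, ← mul_sub, abs_of_nonneg (by
        have := sub_nonneg.2 hxy; positivity)]
    exact le_of_eq (by ring)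
  · have hx0 : 0 < x := lt_of_lt_of_le (by positivity) hx
    rw [gk_of_le _ _ (by linarith), gk_of_le _ _ hy, h.lo_band hβ hx, h.lo_band hβ (by linarith),
      abs_sub_comm]
    refine norm_image_sub_le_of_norm_deriv_le_segment'
      (f := fun c => (s + 2) / (s + 1) * c ^ (-s) - θ * β * c ^ (-(s + 1)))
      (f' := fun c => (s + 2) / (s + 1) * (-s * c ^ (-s - 1))
        - θ * β * (-(s + 1) * c ^ (-(s + 1) - 1))) (fun c hc => ?_) (fun c hc => ?_) y
      ⟨hxy, le_rfl⟩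
    · have hc0 : c ≠ 0 := (hx0.trans_le hc.1).ne'
      exact (((hasDerivAt_rpow_const (Or.inl hc0)).const_mul _).sub
        ((hasDerivAt_rpow_const (Or.inl hc0)).const_mul _)).hasDerivWithinAt
    · have hc0 : 0 < c := hx0.trans_le hc.1
      have hc1 : θ * β ≤ c := hx.trans hc.1
      have hc2 : c ≤ β := hc.2.le.trans hy
      have f1 : c ^ (-(s + 1)) ≤ (s + 1) * θ * β ^ (-(s + 1)) := by
        rw [← h.e1, ← mul_rpow hθ.le hβ.le]
        exact rpow_le_rpow_of_nonpos (by positivity) hc1 (by linarith)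
      have f2 : (s + 2) / (s + 1) * (-s * c ^ (-s - 1)) - θ * β * (-(s + 1) * c ^ (-(s + 1) - 1))
          = c ^ (-(s + 1)) * (((s + 1) ^ 2 * (θ * β / c) - s * (s + 2)) / (s + 1)) := by
        rw [rpow_sub_one hc0.ne' (-(s + 1)), show -s - 1 = -(s + 1) by ring]
        field_simp; ring
      have f3 : θ * β / c ≤ 1 := (div_le_one hc0).2 hc1
      have f4 : θ ≤ θ * β / c := by rw [le_div_iff₀ hc0]; nlinarith
      have f5 : |(s + 1) ^ 2 * (θ * β / c) - s * (s + 2)| ≤ 1 := by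
        have := h.hlo
        have g1 := mul_le_mul_of_nonneg_left f3 (sq_nonneg (s + 1))
        have g2 := mul_le_mul_of_nonneg_left f4 (sq_nonneg (s + 1))
        rw [abs_le]; constructor <;> nlinarith
      rw [norm_eq_abs, f2, abs_mul, abs_div, abs_of_pos (rpow_pos_of_pos hc0 _),
        abs_of_pos (by linarith : 0 < s + 1)]
      calc _ ≤ (s + 1) * θ * β ^ (-(s + 1)) * (1 / (s + 1)) := by gcongr
        _ = _ := by field_simp
  · have hy' : θ * y ≤ β := by rwa [le_div_iff₀' hθ] at hy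
    rw [gk_symm _ _ β x, gk_symm _ _ β y, gk_of_le _ _ hx, gk_of_le _ _ (by linarith),
      h.lo_band (by linarith) (by nlinarith), h.lo_band (by linarith) hy']
    rw [show ∀ a : ℝ, a - θ * x * β ^ (-(s + 1)) - (a - θ * y * β ^ (-(s + 1)))
      = θ * β ^ (-(s + 1)) * (y - x) from fun a => by ring, abs_of_nonneg (by
        have := sub_nonneg.2 hxy; positivity)]
  · have hx' : β ≤ θ * x := by rwa [div_le_iff₀' hθ] at hx
    have hx0 : 0 < x := lt_of_lt_of_le (by positivity) hx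
    have hx1 : θ * x ≤ x := by nlinarith
    rw [gk_symm _ _ β x, gk_symm _ _ β y, gk_of_le _ _ (by linarith), gk_of_le _ _ (by linarith),
      h.lo_out hx', h.lo_out (by nlinarith), ← mul_sub]
    have f1 := rpow_neg_tangent hx0 (hx0.trans_le hxy) (show 0 ≤ s + 1 by linarith)
    have f2 := rpow_le_rpow_of_nonpos hx0 hxy (show -(s + 1) ≤ 0 by linarith)
    have f3 : (s + 1) * (x ^ (-(s + 1)) / x) * β ≤ β ^ (-(s + 1)) := by
      rw [← le_div_iff₀ hβ, ← rpow_neg_succ hβ, ← rpow_neg_succ hx0,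
        show s + 1 + 1 = s + 2 by ring, ← h.he, ← mul_rpow hθ.le hx0.le]
      exact rpow_le_rpow_of_nonpos hβ hx' (by linarith)
    rw [abs_of_nonneg (mul_nonneg (by positivity) (by linarith))]
    have f4 := mul_le_mul_of_nonneg_right f3 (sub_nonneg.2 hxy)
    have f5 := mul_le_mul_of_nonneg_left f1 hβ.le
    rw [mul_assoc, mul_assoc]
    refine mul_le_mul_of_nonneg_left ?_ hθ.le
    linarith

lemma abs_le {β c : ℝ} (hβ : 0 < β) (hc : 0 ≤ c) : |gk s θ β c| ≤ θ * β ^ (-(s + 1)) * c := by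
  have := h.lip hβ 0 c le_rfl hc
  rwa [gk_of_le _ _ hβ.le, h.lo_out (mul_pos h.hθ hβ).le, mul_zero, zero_mul, zero_sub, abs_neg,
    sub_zero] at this

/-- Shift of both arguments near the diagonal. -/
lemma shift {b x y u v σ η : ℝ} (hb : 0 < b) (hx : b ≤ x) (hxy : x ≤ y) (hu : 0 ≤ u) (hv : 0 ≤ v)
    (hxy' : x + u ≤ y + v) (hη : 0 ≤ η) (hy : y + v ≤ b * (1 + η)) (hθη : θ * (1 + η) ≤ 1)
    (hu1 : u ≤ σ) (hu2 : σ * (1 - η) ≤ u) (hv2 : σ * (1 - η) ≤ v) (hη1 : (s + 1) * η ≤ 1) :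
    b ^ (-(s + 1)) * σ * (s * ((s + 2) / (s + 1) - θ) - 5 * (s + 1) * (s + 2) * η)
      ≤ gk s θ y x - gk s θ (y + v) (x + u) := by
  have hθ := h.hθ
  have hθ1 := h.lt_one
  have hs := h.hs
  have hx0 : 0 < x := by linarith
  have hσ : 0 ≤ σ := by linarith
  have k1 : θ * (y + v) ≤ b := by nlinarith
  rw [gk_of_le _ _ hxy, gk_of_le _ _ hxy', h.lo_band (by linarith) (by nlinarith),
    h.lo_band (by linarith) (by linarith)]
  set P := b ^ (-(s + 1)) with hP
  have hP0 : 0 < P := rpow_pos_of_pos hb _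
  have low : ∀ z, b ≤ z → z ≤ b * (1 + η) → P * (1 - (s + 1) * η) ≤ z ^ (-(s + 1)) := by
    intro z h1 h2
    have := rpow_neg_tangent hb (show 0 < z by linarith) (show 0 ≤ s + 1 by linarith)
    refine le_trans ?_ this
    have e : (s + 1) * (P / b) * (z - b) ≤ (s + 1) * (P / b) * (b * η) :=
      mul_le_mul_of_nonneg_left (by linarith) (by positivity)
    have e' : (s + 1) * (P / b) * (b * η) = P * ((s + 1) * η) := by field_simp
    linarith
  have t1 := rpow_neg_tangent (show 0 < x + u by linarith) hx0 hs.le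
  rw [← rpow_neg_succ (show 0 < x + u by linarith)] at t1
  have t2 := rpow_neg_tangent hx0 (show 0 < x + u by linarith) (show 0 ≤ s + 1 by linarith)
  have l1 := low x hx (by linarith)
  have l2 := low (x + u) (by linarith) (by linarith)
  have l3 : x ^ (-(s + 1)) ≤ P := rpow_le_rpow_of_nonpos hb hx (by linarith)
  have l4 : (y + v) * (x ^ (-(s + 1)) / x) ≤ (1 + η) * P := by
    rw [← mul_div_assoc, div_le_iff₀ hx0]
    calc _ ≤ (x * (1 + η)) * P := mul_le_mul (by nlinarith) l3 (rpow_pos_of_pos hx0 _).le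
          (by positivity)
      _ = _ := by ring
  set X := x ^ (-(s + 1))
  set X' := (x + u) ^ (-(s + 1))
  set w := 1 - (s + 1) * η with hw
  have hw0 : 0 ≤ w := by linarith
  have hη2 : η ≤ (s + 1) * η := by nlinarith
  have m0 : 1 - 2 * ((s + 1) * η) ≤ w * (1 - η) := by
    have : 0 ≤ (s + 1) * η * η := by positivity
    simp only [hw]; linarith
  have hPσ : 0 ≤ P * σ := by positivity
  have m1 : P * σ * (1 - 2 * ((s + 1) * η)) ≤ X * v := by
    calc _ ≤ P * σ * (w * (1 - η)) := mul_le_mul_of_nonneg_left m0 hPσ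
      _ = (P * w) * (σ * (1 - η)) := by ring
      _ ≤ _ := mul_le_mul l1 hv2 (mul_nonneg hσ (by linarith)) (by positivity)
  have m2 : P * σ * (1 - 2 * ((s + 1) * η)) ≤ X' * u := by
    calc _ ≤ P * σ * (w * (1 - η)) := mul_le_mul_of_nonneg_left m0 hPσ
      _ = (P * w) * (σ * (1 - η)) := by ring
      _ ≤ _ := mul_le_mul l2 hu2 (mul_nonneg hσ (by linarith)) (by positivity)
  have m3 : (y + v) * (X - X') ≤ (s + 1) * ((1 + η) * (P * σ)) := by
    calc _ ≤ (y + v) * ((s + 1) * (X / x) * u) :=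
          mul_le_mul_of_nonneg_left (by linarith) (by linarith)
      _ = (s + 1) * (((y + v) * (X / x)) * u) := by ring
      _ ≤ (s + 1) * (((1 + η) * P) * σ) := by gcongr
      _ = _ := by ring
  set A := (s + 2) / (s + 1) with hA
  have hA0 : 0 < A := by positivity
  have hA2 : A ≤ s + 2 := div_le_self (by linarith) (by linarith)
  have m4 : s * (P * σ * (1 - 2 * ((s + 1) * η))) ≤ x ^ (-s) - (x + u) ^ (-s) := by
    have := mul_le_mul_of_nonneg_left m2 hs.le
    linarith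
  have m5 := mul_le_mul_of_nonneg_left m4 hA0.le
  have m6 := mul_le_mul_of_nonneg_left m1 hθ.le
  have m7 := mul_le_mul_of_nonneg_left m3 hθ.le
  have hAs : A * s ≤ s + 2 := by
    rw [hA, div_mul_eq_mul_div, div_le_iff₀ (by linarith)]; nlinarith
  have m8 : 0 ≤ P * σ * ((s + 1) * η) := by positivity
  have m9 := mul_le_mul_of_nonneg_right hAs m8
  have m10 := mul_le_mul_of_nonneg_right hθ1.le m8
  have m11 := mul_nonneg hs.le m8
  linarith

end Pa

end Pool.Agent.Lib.MP_19b6b2_an.W
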