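import Mathlib

namespace Pool.Agent.Lib.MP_19b6b2_an.W

open Real Finset MeasureTheory intervalIntegral

lemma min_form_nonneg {ι : Type} (S : Finset ι) (r u : ι → ℝ) (hr : ∀ a, 0 ≤ r a) :
    0 ≤ ∑ a ∈ S, ∑ b ∈ S, min (r a) (r b) * u a * u b := by
  set I : ι → ℝ → ℝ := fun k => (Set.Icc 0 (r k)).indicator fun _ => (1 : ℝ) with hI
  have hprod : ∀ k n, (fun t => I k t * I n t)
      = (Set.Icc 0 (min (r k) (r n))).indicator fun _ => (1 : ℝ) := by
    intro k n
    ext t
    rw [← max_self (0 : ℝ), ← Set.Icc_inter_Icc]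
    exact (congrFun (Set.inter_indicator_one (M₀ := ℝ)) t).symm
  have hint : ∀ k n, Integrable (fun t => I k t * I n t) := by
    intro k n
    rw [hprod]
    exact (integrable_indicator_iff measurableSet_Icc).2 (integrableOn_const (by simp))
  have hval : ∀ k n, ∫ t, I k t * I n t = min (r k) (r n) := by
    intro k n
    rw [hprod, MeasureTheory.integral_indicator measurableSet_Icc]
    simp only [MeasureTheory.integral_const, MeasurableSet.univ, measureReal_restrict_apply,
      Set.univ_inter, smul_eq_mul, mul_one, Real.volume_real_Icc, sub_zero]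
    exact max_eq_left (le_min (hr k) (hr n))
  have : ∑ k ∈ S, ∑ n ∈ S, min (r k) (r n) * u k * u n
      = ∫ t, ∑ k ∈ S, ∑ n ∈ S, (I k t * I n t) * (u k * u n) := by
    rw [MeasureTheory.integral_finsetSum]
    · refine sum_congr rfl fun k _ => ?_
      rw [MeasureTheory.integral_finsetSum]
      · refine sum_congr rfl fun n _ => ?_
        rw [MeasureTheory.integral_mul_const, hval]; ring
      · intro n _; exact (hint k n).mul_const _
    · intro k _
      exact integrable_finsetSum _ fun n _ => (hint k n).mul_const _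
  rw [this]
  refine MeasureTheory.integral_nonneg fun t => ?_
  have : ∑ k ∈ S, ∑ n ∈ S, (I k t * I n t) * (u k * u n) = (∑ k ∈ S, I k t * u k) ^ 2 := by
    rw [sq, sum_mul_sum]
    refine sum_congr rfl fun k _ => sum_congr rfl fun n _ => by ring
  simp only [this]
  positivity

noncomputable def mn (p x z : ℝ) : ℝ := min x z ^ p

lemma mn_symm (p x z : ℝ) : mn p x z = mn p z x := by unfold mn; rw [min_comm]

lemma mn_of_le (p : ℝ) {x z : ℝ} (h : x ≤ z) : mn p x z = x ^ p := by unfold mn; rw [min_eq_left h]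

lemma mn_eq {p x z : ℝ} (hp : 0 ≤ p) (hx : 0 ≤ x) (hz : 0 ≤ z) :
    mn p x z = min (x ^ p) (z ^ p) := by
  rcases le_total x z with h | h
  · rw [mn_of_le p h, min_eq_left (rpow_le_rpow hx h hp)]
  · rw [mn_symm, mn_of_le p h, min_eq_right (rpow_le_rpow hz h hp)]

lemma mn_div {p x z r : ℝ} (hx : 0 ≤ x) (hz : 0 ≤ z) (hr : 0 < r) :
    mn p (x / r) (z / r) = (r ^ (-(p / 2))) ^ 2 * mn p x z := by
  unfold mn
  rw [min_div_div_right hr.le, div_rpow (le_min hx hz) hr.le, ← rpow_natCast, ← rpow_mul hr.le,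
    show -(p / 2) * ((2 : ℕ) : ℝ) = -p by push_cast; ring, rpow_neg hr.le]
  ring

/-- the form at ratio `r` -/
noncomputable def ph {ι : Type} (S : Finset ι) (x v : ι → ℝ) (p r : ℝ) : ℝ :=
  ∑ a ∈ S, ∑ b ∈ S, (mn p (x a) (x b / r) + mn p (x a / r) (x b)) * v a * v b

noncomputable def ph1 {ι : Type} (S : Finset ι) (x v : ι → ℝ) (p : ℝ) : ℝ :=
  ∑ a ∈ S, ∑ b ∈ S, mn p (x a) (x b) * v a * v b

lemma mn_form {ι : Type} (S : Finset ι) (x v : ι → ℝ) {p : ℝ} (hp : 0 ≤ p) (hx : ∀ a, 0 ≤ x a) :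
    0 ≤ ph1 S x v p := by
  have := min_form_nonneg S (fun a => x a ^ p) v fun a => rpow_nonneg (hx a) p
  refine this.trans (le_of_eq (sum_congr rfl fun a _ => sum_congr rfl fun b _ => ?_))
  rw [mn_eq hp (hx a) (hx b)]

lemma abs_ph_le {ι : Type} (S : Finset ι) (x v : ι → ℝ) {p r : ℝ} (hp : 0 ≤ p) (hr : 0 < r)
    (hx : ∀ a, 0 ≤ x a) : |ph S x v p r| ≤ 2 * r ^ (-(p / 2)) * ph1 S x v p := by
  set y := r ^ (-(p / 2)) with hy
  have hy0 : 0 < y := rpow_pos_of_pos hr _
  have key : ∀ e : ℝ, e ^ 2 = 1 → 0 ≤ y * (2 * y * ph1 S x v p + e * ph S x v p r) := by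
    intro e he
    have := mn_form (S.disjSum S) (Sum.elim x fun a => x a / r)
      (Sum.elim (fun a => y * v a) fun a => e * v a) hp (by
        rintro (a | a)
        exacts [hx a, div_nonneg (hx a) hr.le])
    refine this.trans (le_of_eq ?_)
    simp only [ph1, ph, sum_disjSum, Sum.elim_inl, Sum.elim_inr, mul_sum, ← sum_add_distrib]
    refine sum_congr rfl fun a _ => sum_congr rfl fun b _ => ?_
    rw [mn_div (hx a) (hx b) hr, ← hy]
    linear_combination y ^ 2 * mn p (x a) (x b) * v a * v b * he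
  have k2 := key (-1) (by norm_num)
  have k3 := key 1 (by norm_num)
  rw [mul_nonneg_iff_of_pos_left hy0] at k2 k3
  rw [abs_le]; constructor <;> linarith

lemma cont_mn {p x z a : ℝ} (hp : 0 ≤ p) (ha : 0 < a) {l m : ℝ} (hl : a ≤ l) (hm : a ≤ m) :
    ContinuousOn (fun r => mn p x (z / r) + mn p (x / r) z) (Set.uIcc l m) := by
  have h0 : ∀ r ∈ Set.uIcc l m, r ≠ 0 := fun r hr =>
    (ha.trans_le ((le_min hl hm).trans hr.1)).ne'
  have h1 : ∀ w : ℝ, ContinuousOn (fun r => w / r) (Set.uIcc l m) := fun w =>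
    continuousOn_const.div continuousOn_id h0
  exact ((continuousOn_const.inf (h1 z)).rpow_const fun _ _ => Or.inr hp).add
    (((h1 x).inf continuousOn_const).rpow_const fun _ _ => Or.inr hp)

lemma cont_pow {e a l m : ℝ} (ha : 0 < a) (hl : a ≤ l) (hm : a ≤ m) :
    ContinuousOn (fun r : ℝ => r ^ e) (Set.uIcc l m) :=
  continuousOn_id.rpow_const fun _ hr => Or.inl (ha.trans_le ((le_min hl hm).trans hr.1)).ne'

noncomputable def Jf (p e a x z : ℝ) : ℝ :=
  ∫ r in a..1, r ^ e * (mn p x (z / r) + mn p (x / r) z)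

lemma Jf_symm (p e a x z : ℝ) : Jf p e a x z = Jf p e a z x := by
  unfold Jf
  congr 1; ext r
  rw [mn_symm p x, mn_symm p (x / r), add_comm]

lemma int_pow {l m e : ℝ} (hl : 0 < l) (hm : 0 < m) (he : e + 1 ≠ 0) :
    ∫ r in l..m, r ^ e = (m ^ (e + 1) - l ^ (e + 1)) / (e + 1) :=
  integral_rpow (Or.inr ⟨fun h => he (by rw [h]; ring), fun h => by
    linarith [lt_min hl hm, h.1]⟩)

lemma J_low {p e a c x z : ℝ} (ha : 0 < a) (hac : a ≤ c) (hc : c ≤ 1) (hx : 0 < x) (hxz : x ≤ z)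
    (hcz : c * z ≤ x) (he : e + 1 ≠ 0) :
    ∫ r in a..c, r ^ e * (mn p x (z / r) + mn p (x / r) z)
      = (x ^ p + z ^ p) * ((c ^ (e + 1) - a ^ (e + 1)) / (e + 1)) := by
  rw [← int_pow ha (by linarith) he, ← intervalIntegral.integral_const_mul]
  refine integral_congr fun r hr => ?_
  rw [Set.uIcc_of_le hac] at hr
  have hr0 : 0 < r := by linarith [hr.1]
  have h1 : x ≤ z / r := by rw [le_div_iff₀ hr0]; nlinarith [hr.2]
  have h2 : z ≤ x / r := by rw [le_div_iff₀ hr0]; nlinarith [hr.2]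
  rw [mn_of_le p h1, mn_symm, mn_of_le p h2]; ring

lemma J_high {p e c x z : ℝ} (hc0 : 0 < c) (hc : c ≤ 1) (hx : 0 < x) (hxz : x ≤ z)
    (hcz : x ≤ c * z) (he : e + 1 ≠ 0) (he' : e - p + 1 ≠ 0) :
    Jf p e c x z
      = x ^ p * ((1 - c ^ (e + 1)) / (e + 1) + (1 - c ^ (e - p + 1)) / (e - p + 1)) := by
  have i1 := int_pow hc0 one_pos he
  have i2 := int_pow hc0 one_pos he'
  rw [one_rpow] at i1 i2
  rw [← i1, ← i2, ← intervalIntegral.integral_add (cont_pow hc0 le_rfl hc).intervalIntegrable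
    (cont_pow hc0 le_rfl hc).intervalIntegrable, ← intervalIntegral.integral_const_mul]
  refine integral_congr fun r hr => ?_
  rw [Set.uIcc_of_le hc] at hr
  have hr0 : 0 < r := by linarith [hr.1]
  have h1 : x ≤ z / r := by rw [le_div_iff₀ hr0]; nlinarith [hr.2]
  have h2 : x / r ≤ z := by rw [div_le_iff₀ hr0]; nlinarith [hr.1]
  rw [mn_of_le p h1, mn_of_le p h2, div_rpow hx.le hr0.le, rpow_sub hr0]; ring

lemma J_band {p e a x z : ℝ} (hp : 0 ≤ p) (ha : 0 < a) (hx : 0 < x) (hxz : x ≤ z)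
    (haz : a * z ≤ x) (he : e + 1 ≠ 0) (he' : e - p + 1 ≠ 0) :
    Jf p e a x z = (x ^ p + z ^ p) * (((x / z) ^ (e + 1) - a ^ (e + 1)) / (e + 1))
      + x ^ p * ((1 - (x / z) ^ (e + 1)) / (e + 1) + (1 - (x / z) ^ (e - p + 1)) / (e - p + 1)) := by
  have hz : 0 < z := by linarith
  have h1 : a ≤ x / z := by rwa [le_div_iff₀ hz]
  have h2 : x / z ≤ 1 := (div_le_one hz).2 hxz
  have h3 : x / z * z = x := by field_simp
  rw [← J_low ha h1 h2 hx hxz h3.le he, ← J_high (by positivity) h2 hx hxz h3.ge he he']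
  refine (integral_add_adjacent_intervals ?_ ?_).symm
  · exact ((cont_pow ha le_rfl h1).mul (cont_mn hp ha le_rfl h1)).intervalIntegrable
  · exact ((cont_pow ha h1 (h1.trans h2)).mul (cont_mn hp ha h1 (h1.trans h2))).intervalIntegrable

lemma J_form {ι : Type} (S : Finset ι) (x v : ι → ℝ) {p a : ℝ} (e : ℝ) (hp : 0 ≤ p) (ha : 0 < a)
    (ha1 : a ≤ 1) : ∑ i ∈ S, ∑ j ∈ S, Jf p e a (x i) (x j) * v i * v j
      = ∫ r in a..1, r ^ e * ph S x v p r := by
  have hc : ∀ i j, ContinuousOn (fun r => r ^ e * (mn p (x i) (x j / r) + mn p (x i / r) (x j))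
      * v i * v j) (Set.uIcc a 1) := fun i j =>
    (((cont_pow ha le_rfl ha1).mul (cont_mn hp ha le_rfl ha1)).mul continuousOn_const).mul
      continuousOn_const
  simp only [ph, mul_sum, ← mul_assoc]
  rw [intervalIntegral.integral_finsetSum fun i _ =>
    (continuousOn_finsetSum _ fun j _ => hc i j).intervalIntegrable]
  refine sum_congr rfl fun i _ => ?_
  rw [intervalIntegral.integral_finsetSum fun j _ => (hc i j).intervalIntegrable]
  refine sum_congr rfl fun j _ => ?_
  rw [intervalIntegral.integral_mul_const, intervalIntegral.integral_mul_const]; rfl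

lemma cont_ph {ι : Type} (S : Finset ι) (x v : ι → ℝ) {p a l m : ℝ} (hp : 0 ≤ p) (ha : 0 < a)
    (hl : a ≤ l) (hm : a ≤ m) : ContinuousOn (ph S x v p) (Set.uIcc l m) :=
  continuousOn_finsetSum _ fun _ _ => continuousOn_finsetSum _ fun _ _ =>
    ((cont_mn hp ha hl hm).mul continuousOn_const).mul continuousOn_const

/-- window functional -/
noncomputable def wi (q a x u : ℝ) : ℝ := min x (u / a) ^ q - min x u ^ q

lemma cont_wi {q : ℝ} (hq : 0 ≤ q) (a x : ℝ) : Continuous (wi q a x) :=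
  ((continuous_const.min (continuous_id.div_const a)).rpow_const fun _ => Or.inr hq).sub
    ((continuous_const.min continuous_id).rpow_const fun _ => Or.inr hq)

lemma int_quad {q l m : ℝ} (α β γ : ℝ) (hq : 0 < q) (hl : 0 ≤ l) (hlm : l ≤ m) {f : ℝ → ℝ}
    (hf : ∀ u, l ≤ u → u ≤ m → f u = α + β * u ^ q + γ * (u ^ q) ^ 2) :
    ∫ u in l..m, f u = α * (m - l) + β * ((m ^ q * m - l ^ q * l) / (q + 1))
      + γ * (((m ^ q) ^ 2 * m - (l ^ q) ^ 2 * l) / (2 * q + 1)) := by
  have e1 : ∀ u : ℝ, 0 ≤ u → u ^ (q + 1) = u ^ q * u := fun u hu =>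
    rpow_add_one' hu (by linarith)
  have e2 : ∀ u : ℝ, 0 ≤ u → u ^ (2 * q) = (u ^ q) ^ 2 := fun u hu => by
    rw [mul_comm, rpow_mul hu, rpow_two]
  have e3 : ∀ u : ℝ, 0 ≤ u → u ^ (2 * q + 1) = (u ^ q) ^ 2 * u := fun u hu => by
    rw [rpow_add_one' hu (by linarith), e2 u hu]
  have i1 := integral_rpow (a := l) (b := m) (r := q) (Or.inl (by linarith))
  have i2 := integral_rpow (a := l) (b := m) (r := 2 * q) (Or.inl (by linarith))
  have c1 : Continuous fun u : ℝ => u ^ q := continuous_id.rpow_const fun _ => Or.inr hq.le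
  have c2 : Continuous fun u : ℝ => u ^ (2 * q) :=
    continuous_id.rpow_const fun _ => Or.inr (by linarith)
  rw [← e1 m (by linarith), ← e1 l hl, ← e3 m (by linarith), ← e3 l hl, ← i1, ← i2]
  have : ∫ u in l..m, f u = ∫ u in l..m, (α + β * u ^ q + γ * u ^ (2 * q)) := by
    refine integral_congr fun u hu => ?_
    rw [Set.uIcc_of_le hlm] at hu
    rw [hf u hu.1 hu.2, e2 u (by linarith [hu.1])]
  rw [this, intervalIntegral.integral_add, intervalIntegral.integral_add,
    intervalIntegral.integral_const_mul, intervalIntegral.integral_const_mul]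
  · simp [mul_comm]
  · exact continuous_const.intervalIntegrable _ _
  · exact (continuous_const.mul c1).intervalIntegrable _ _
  · exact (continuous_const.add (continuous_const.mul c1)).intervalIntegrable _ _
  · exact (continuous_const.mul c2).intervalIntegrable _ _

lemma window_eq {q a x z Y : ℝ} (hq : 0 < q) (ha : 0 < a) (ha1 : a ≤ 1) (hx : 0 < x) (hxz : x ≤ z)
    (hY : x ≤ Y) : (2 * q + 1) * ∫ u in (0 : ℝ)..Y, wi q a x u * wi q a z u
      = q ^ 2 * (Jf (2 * q + 1) q a x z - a * Jf (2 * q + 1) (q - 1) a x z) := by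
  have hz : 0 < z := by linarith
  have hc : ∀ l m, IntervalIntegrable (fun u => wi q a x u * wi q a z u) volume l m := fun l m =>
    ((cont_wi hq.le a x).mul (cont_wi hq.le a z)).intervalIntegrable l m
  set y := min x (a * z) with hy
  have hax : a * x ≤ x := by nlinarith
  have hy1 : a * x ≤ y := le_min hax (by nlinarith)
  have hy2 : y ≤ x := min_le_left _ _
  have hy3 : y ≤ a * z := min_le_right _ _
  have hA : 0 < a ^ q := rpow_pos_of_pos ha q
  have hX : 0 < x ^ q := rpow_pos_of_pos hx q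
  have hZ : 0 < z ^ q := rpow_pos_of_pos hz q
  have w1 : ∀ w u, 0 ≤ u → u ≤ a * w → wi q a w u = ((a ^ q)⁻¹ - 1) * u ^ q := by
    intro w u h0 h1
    have h2 : u / a ≤ w := by rwa [div_le_iff₀' ha]
    have h3 : u ≤ u / a := by rw [le_div_iff₀ ha]; nlinarith
    unfold wi
    rw [min_eq_right h2, min_eq_right (h3.trans h2), div_rpow h0 ha.le]; ring
  have w2 : ∀ w u, a * w ≤ u → u ≤ w → wi q a w u = w ^ q - u ^ q := by
    intro w u h0 h1
    unfold wi
    rw [min_eq_left (by rwa [le_div_iff₀' ha]), min_eq_right h1]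
  have p1 := int_quad 0 0 (((a ^ q)⁻¹ - 1) ^ 2) hq le_rfl (by positivity : 0 ≤ a * x)
    (f := fun u => wi q a x u * wi q a z u) fun u h0 h1 => by
      rw [w1 x u h0 h1, w1 z u h0 (by linarith)]; ring
  have p2 := int_quad 0 (((a ^ q)⁻¹ - 1) * x ^ q) (-((a ^ q)⁻¹ - 1)) hq
    (by positivity : 0 ≤ a * x) hy1 (f := fun u => wi q a x u * wi q a z u) fun u h0 h1 => by
      rw [w2 x u h0 (by linarith), w1 z u (le_trans (by positivity) h0) (by linarith)]; ring
  have p4 : ∫ u in x..Y, wi q a x u * wi q a z u = 0 := by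
    rw [integral_congr (g := fun _ => 0)]
    · simp
    · intro u hu
      rw [Set.uIcc_of_le hY] at hu
      have h3 : u ≤ u / a := by rw [le_div_iff₀ ha]; nlinarith [hu.1]
      simp only [wi]
      rw [min_eq_left hu.1, min_eq_left (hu.1.trans h3)]; simp
  have e2 : ∀ u : ℝ, 0 < u → u ^ (2 * q + 1) = (u ^ q) ^ 2 * u := fun u hu => by
    rw [rpow_add_one hu.ne', mul_comm 2, rpow_mul hu.le, rpow_two]
  have e3 : ∀ u : ℝ, 0 < u → u ^ (q - (2 * q + 1) + 1) = (u ^ q)⁻¹ := fun u hu => by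
    rw [← rpow_neg hu.le]; congr 1; ring
  have e4 : ∀ u : ℝ, 0 < u → u ^ (q - 1 - (2 * q + 1) + 1) = (u ^ q * u)⁻¹ := fun u hu => by
    rw [← rpow_add_one hu.ne', ← rpow_neg hu.le]; congr 1; ring
  have n1 : q + 1 ≠ 0 := by linarith
  have n2 : q - (2 * q + 1) + 1 = -q := by ring
  have n3 : q - 1 - (2 * q + 1) + 1 = -(q + 1) := by ring
  have n4 : 2 * q + 1 ≠ 0 := by linarith
  rw [← integral_add_adjacent_intervals (hc 0 x) (hc x Y), p4, add_zero,
    ← integral_add_adjacent_intervals (hc 0 y) (hc y x),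
    ← integral_add_adjacent_intervals (hc 0 (a * x)) (hc (a * x) y), p1, p2]
  rcases le_total x (a * z) with h | h
  · rw [show y = x from min_eq_left h, integral_same,
      J_high ha ha1 hx hxz h n1 (by rw [n2]; linarith),
      J_high ha ha1 hx hxz h (by linarith) (by rw [n3]; linarith), e3 a ha, e4 a ha, n2, n3,
      e2 x hx, sub_add_cancel, rpow_add_one ha.ne', mul_rpow ha.le hx.le]
    field_simp; ring
  · have hy' : y = a * z := min_eq_right h
    have p3 := int_quad (x ^ q * z ^ q) (-(x ^ q + z ^ q)) 1 hq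
      (by positivity : 0 ≤ a * z) h (f := fun u => wi q a x u * wi q a z u) fun u h0 h1 => by
        rw [w2 x u (by linarith) h1, w2 z u h0 (by linarith)]; ring
    have hxz0 : 0 < x / z := by positivity
    rw [hy', p3, J_band (by linarith) ha hx hxz h n1 (by rw [n2]; linarith),
      J_band (by linarith) ha hx hxz h (by linarith) (by rw [n3]; linarith), e3 _ hxz0, e4 _ hxz0,
      n2, n3, e2 x hx, e2 z hz, sub_add_cancel, rpow_add_one ha.ne', rpow_add_one hxz0.ne',
      mul_rpow ha.le hx.le, mul_rpow ha.le hz.le, div_rpow hx.le hz.le]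
    field_simp; ring

theorem window_nonneg {ι : Type} (S : Finset ι) (x v : ι → ℝ) {q a : ℝ} (hq : 0 < q) (ha : 0 < a)
    (ha1 : a ≤ 1) (hx : ∀ i, 0 < x i) :
    0 ≤ ∫ r in a..1, (r ^ q - a * r ^ (q - 1)) * ph S x v (2 * q + 1) r := by
  set Y := ∑ i ∈ S, x i with hY
  have hY0 : 0 ≤ Y := sum_nonneg fun i _ => (hx i).le
  have hYi : ∀ i ∈ S, x i ≤ Y := fun i hi => single_le_sum (fun j _ => (hx j).le) hi
  have hp : 0 ≤ 2 * q + 1 := by linarith
  have e1 : ∀ i ∈ S, ∀ j ∈ S, (2 * q + 1) * ∫ u in (0 : ℝ)..Y, wi q a (x i) u * wi q a (x j) u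
      = q ^ 2 * (Jf (2 * q + 1) q a (x i) (x j) - a * Jf (2 * q + 1) (q - 1) a (x i) (x j)) := by
    intro i hi j hj
    rcases le_total (x i) (x j) with h | h
    · exact window_eq hq ha ha1 (hx i) h (hYi i hi)
    · rw [Jf_symm _ q, Jf_symm _ (q - 1), ← window_eq hq ha ha1 (hx j) h (hYi j hj)]
      simp only [mul_comm]
  have hc : ∀ i j, Continuous fun u => wi q a (x i) u * wi q a (x j) u * v i * v j := fun i j =>
    (((cont_wi hq.le a _).mul (cont_wi hq.le a _)).mul continuous_const).mul continuous_const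
  have e2 : 0 ≤ ∑ i ∈ S, ∑ j ∈ S,
      (∫ u in (0 : ℝ)..Y, wi q a (x i) u * wi q a (x j) u) * v i * v j := by
    have : ∑ i ∈ S, ∑ j ∈ S, (∫ u in (0 : ℝ)..Y, wi q a (x i) u * wi q a (x j) u) * v i * v j
        = ∫ u in (0 : ℝ)..Y, ∑ i ∈ S, ∑ j ∈ S, wi q a (x i) u * wi q a (x j) u * v i * v j := by
      rw [intervalIntegral.integral_finsetSum fun i _ =>
        (continuous_finsetSum _ fun j _ => hc i j).intervalIntegrable _ _]
      refine sum_congr rfl fun i _ => ?_
      rw [intervalIntegral.integral_finsetSum fun j _ => (hc i j).intervalIntegrable _ _]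
      refine sum_congr rfl fun j _ => ?_
      rw [intervalIntegral.integral_mul_const, intervalIntegral.integral_mul_const]
    rw [this]
    refine intervalIntegral.integral_nonneg hY0 fun u _ => ?_
    have : ∑ i ∈ S, ∑ j ∈ S, wi q a (x i) u * wi q a (x j) u * v i * v j
        = (∑ i ∈ S, wi q a (x i) u * v i) ^ 2 := by
      rw [sq, sum_mul_sum]
      exact sum_congr rfl fun k _ => sum_congr rfl fun n _ => by ring
    rw [this]; positivity
  have e3 : q ^ 2 * ∫ r in a..1, (r ^ q - a * r ^ (q - 1)) * ph S x v (2 * q + 1) r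
      = (2 * q + 1) * ∑ i ∈ S, ∑ j ∈ S,
        (∫ u in (0 : ℝ)..Y, wi q a (x i) u * wi q a (x j) u) * v i * v j := by
    have c0 := cont_ph S x v hp ha le_rfl ha1
    simp only [sub_mul, mul_assoc a]
    have c1 : ∀ e : ℝ, IntervalIntegrable (fun r => r ^ e * ph S x v (2 * q + 1) r) volume a 1 :=
      fun e => ((cont_pow ha le_rfl ha1).mul c0).intervalIntegrable
    rw [intervalIntegral.integral_sub (c1 q) ((c1 (q - 1)).const_mul a),
      intervalIntegral.integral_const_mul, ← J_form S x v q hp ha ha1,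
      ← J_form S x v (q - 1) hp ha ha1]
    simp only [mul_sum, ← sum_sub_distrib]
    refine sum_congr rfl fun i hi => sum_congr rfl fun j hj => ?_
    linear_combination -(v i * v j) * e1 i hi j hj
  have e4 := mul_nonneg hp e2
  rw [← e3] at e4
  exact (mul_nonneg_iff_of_pos_left (by positivity)).1 e4

end Pool.Agent.Lib.MP_19b6b2_an.W
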