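import Mathlib
import Pool.Agent.Lib.MP_19b6b2_an.W.Ker
import Pool.Agent.Lib.MP_19b6b2_an.W.Win

namespace Pool.Agent.Lib.MP_19b6b2_an.W

open Real Finset MeasureTheory intervalIntegral

lemma int_lin (A0 A1 B0 B1 l m : ℝ) : ∫ r in l..m, (A0 + A1 * r) * (B0 + B1 * r)
    = A0 * B0 * (m - l) + (A0 * B1 + A1 * B0) * ((m ^ 2 - l ^ 2) / 2)
      + A1 * B1 * ((m ^ 3 - l ^ 3) / 3) := by
  rw [integral_eq_sub_of_hasDerivAt (f := fun r => A0 * B0 * r + (A0 * B1 + A1 * B0) * (r ^ 2 / 2)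
    + A1 * B1 * (r ^ 3 / 3))]
  · ring
  · intro r _
    have := (((hasDerivAt_id r).const_mul (A0 * B0)).add
      (((hasDerivAt_pow 2 r).div_const 2).const_mul (A0 * B1 + A1 * B0))).add
      (((hasDerivAt_pow 3 r).div_const 3).const_mul (A1 * B1))
    refine this.congr_deriv ?_
    push_cast; ring
  · exact Continuous.intervalIntegrable (by fun_prop) _ _

namespace Pa

variable {s θ : ℝ} (h : Pa s θ)
include h

lemma rep_le {b c : ℝ} (hc : 0 < c) (hcb : c ≤ b) : gk s θ b c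
    = b * c * ((θ - s / (s + 1)) * mn (s + 2) b⁻¹ c⁻¹ + Jf (s + 2) 0 θ b⁻¹ c⁻¹) := by
  have hb : 0 < b := by linarith
  have hs := h.hs
  have hθ := h.hθ
  have hxz : b⁻¹ ≤ c⁻¹ := inv_anti₀ hc hcb
  have n1 : (0 : ℝ) + 1 ≠ 0 := by norm_num
  have n2 : 0 - (s + 2) + 1 = -(s + 1) := by ring
  have n3 : s + 1 ≠ 0 := by linarith
  have e1 : ∀ u : ℝ, 0 < u → u⁻¹ ^ (s + 2) = u ^ (-s) / u / u := fun u hu => by
    rw [← rpow_neg_succ hu, ← rpow_neg_succ hu, inv_rpow hu.le, ← rpow_neg hu.le]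
    congr 1; ring
  rw [gk_of_le _ _ hcb, mn_of_le _ hxz]
  rcases le_total c (θ * b) with h1 | h1
  · rw [h.lo_out h1, J_high hθ h.lt_one.le (inv_pos.2 hb) hxz ?_ n1 (by rw [n2]; linarith), n2,
      h.e1, e1 b hb, rpow_neg_succ hb, zero_add, rpow_one]
    · field_simp; ring
    · rw [← div_eq_mul_inv, ← one_div, div_le_div_iff₀ hb hc]; linarith
  · have hP := rpow_pos_of_pos hb (-s)
    rw [h.lo_band hb h1, J_band (by linarith) hθ (inv_pos.2 hb) hxz ?_ n1 (by rw [n2]; linarith),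
      n2, e1 b hb, e1 c hc, zero_add, rpow_one, rpow_one, inv_div_inv, div_rpow hc.le hb.le,
      rpow_neg_succ hb, rpow_neg_succ hc]
    · field_simp; ring
    · rw [← div_eq_mul_inv, ← one_div, div_le_div_iff₀ hc hb]; linarith

lemma rep {b c : ℝ} (hb : 0 < b) (hc : 0 < c) : gk s θ b c
    = b * c * ((θ - s / (s + 1)) * mn (s + 2) b⁻¹ c⁻¹ + Jf (s + 2) 0 θ b⁻¹ c⁻¹) := by
  rcases le_total c b with h1 | h1
  · exact h.rep_le hc h1
  · rw [gk_symm, h.rep_le hb h1, mn_symm, Jf_symm, mul_comm c b]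

lemma chord {k r : ℝ} (h2 : θ ^ (-((s + 2) / 2)) ≤ 1 + k / 2) (h0 : θ ≤ r) (h1 : r ≤ 1) :
    2 * r ^ (-((s + 2) / 2)) ≤ (2 + k / (1 - θ)) + -(k / (1 - θ)) * r := by
  have hr : 0 < r := h.hθ.trans_le h0
  have hd : 0 < 1 - θ := by linarith [h.lt_one]
  have hp : 0 ≤ (s + 2) / 2 := by linarith [h.hs]
  have t1 := mul_le_mul_of_nonneg_left ((rpow_neg_tangent hr h.hθ hp).trans h2) (sub_nonneg.2 h1)
  have t2 := mul_le_mul_of_nonneg_left (rpow_neg_tangent hr one_pos hp) (sub_nonneg.2 h0)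
  rw [one_rpow] at t2
  have e : (2 + k / (1 - θ)) + -(k / (1 - θ)) * r = (2 * (1 - θ) + k * (1 - r)) / (1 - θ) := by
    field_simp; ring
  rw [e, le_div_iff₀ hd]
  linarith

theorem psd_aux {cl ch k c0 : ℝ} (hc0 : 0 ≤ c0) (hcl : 0 ≤ cl) (hch : 0 ≤ ch)
    (h1 : ∀ r, θ ≤ r → r ≤ 1 → cl ≤ c0 * r ^ ((s + 1) / 2 - 1) ∧ c0 * r ^ ((s + 1) / 2 - 1) ≤ ch)
    (h2 : θ ^ (-((s + 2) / 2)) ≤ 1 + k / 2) (h4 : 0.7 * (cl + ch) ≤ 2)
    (h5 : (1 - θ) * (1 + (2 * (0.7 - 0.245 * cl) + k * (0.455 - 0.392 / 3 * cl)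
      + 2 * (0.3 * (1 - 0.7 * cl) + 0.045 * ch) + k * (0.045 * (1 - 0.7 * cl) + 0.0045 * ch)))
      ≤ 1 / (s + 1))
    {ι : Type} (S : Finset ι) (b u : ι → ℝ) (hb : ∀ i, 0 < b i) :
    0 ≤ ∑ i ∈ S, ∑ j ∈ S, gk s θ (b i) (b j) * u i * u j := by
  have hs := h.hs
  have hθ := h.hθ
  have hθ1 := h.lt_one
  have hp : 0 ≤ s + 2 := by linarith
  set x : ι → ℝ := fun i => (b i)⁻¹ with hx
  set v : ι → ℝ := fun i => b i * u i with hv
  have hx0 : ∀ i, 0 < x i := fun i => inv_pos.2 (hb i)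
  set f := ph S x v (s + 2) with hf
  set f1 := ph1 S x v (s + 2) with hf1
  have hf10 : 0 ≤ f1 := mn_form S x v hp fun i => (hx0 i).le
  have e0 : ∑ i ∈ S, ∑ j ∈ S, gk s θ (b i) (b j) * u i * u j
      = (θ - s / (s + 1)) * f1 + ∫ r in θ..1, f r := by
    have := J_form S x v 0 hp hθ hθ1.le
    simp only [rpow_zero, one_mul] at this
    rw [← this, hf1, ph1]
    simp only [mul_sum, ← sum_add_distrib]
    refine sum_congr rfl fun i _ => sum_congr rfl fun j _ => ?_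
    rw [h.rep (hb i) (hb j)]; simp only [hx, hv]; ring
  set q := (s + 1) / 2 with hq
  have e1 := window_nonneg S x v (q := q) (by positivity) hθ hθ1.le hx0
  rw [show 2 * q + 1 = s + 2 by rw [hq]; ring, ← hf] at e1
  set d := 1 - θ with hd
  have hd0 : 0 < d := by linarith
  set W : ℝ → ℝ := fun r => 1 - c0 / d * (r ^ q - θ * r ^ (q - 1)) with hW
  have cf : ∀ l m, θ ≤ l → θ ≤ m → ContinuousOn f (Set.uIcc l m) :=
    fun l m hl hm => cont_ph S x v hp hθ hl hm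
  have cw : ∀ l m, θ ≤ l → θ ≤ m → ContinuousOn (fun r : ℝ => r ^ q - θ * r ^ (q - 1))
      (Set.uIcc l m) := fun l m hl hm =>
    (cont_pow hθ hl hm).sub (continuousOn_const.mul (cont_pow hθ hl hm))
  have cW : ∀ l m, θ ≤ l → θ ≤ m → IntervalIntegrable (fun r => W r * f r) volume l m :=
    fun l m hl hm => ((continuousOn_const.sub (continuousOn_const.mul (cw l m hl hm))).mul
      (cf l m hl hm)).intervalIntegrable
  have e2 : ∫ r in θ..1, f r = (∫ r in θ..1, W r * f r)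
      + c0 / d * ∫ r in θ..1, (r ^ q - θ * r ^ (q - 1)) * f r := by
    have i2 : IntervalIntegrable (fun r => (r ^ q - θ * r ^ (q - 1)) * f r) volume θ 1 :=
      ((cw θ 1 le_rfl hθ1.le).mul (cf θ 1 le_rfl hθ1.le)).intervalIntegrable
    rw [← intervalIntegral.integral_const_mul, ← intervalIntegral.integral_add
      (cW θ 1 le_rfl hθ1.le) (i2.const_mul _)]
    congr 1; ext r; simp only [hW]; ring
  have hWb : ∀ r, θ ≤ r → r ≤ 1 → 1 - ch * ((r - θ) / d) ≤ W r ∧ W r ≤ 1 - cl * ((r - θ) / d) := by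
    intro r h0 h1'
    have hr : 0 < r := by linarith
    have e : W r = 1 - c0 * r ^ (q - 1) * ((r - θ) / d) := by
      simp only [hW]
      rw [rpow_sub_one hr.ne']; field_simp
    have hτ : 0 ≤ (r - θ) / d := div_nonneg (by linarith) hd0.le
    obtain ⟨g1, g2⟩ := h1 r h0 h1'
    rw [e]
    constructor <;> nlinarith [mul_le_mul_of_nonneg_right g1 hτ, mul_le_mul_of_nonneg_right g2 hτ]
  have piece : ∀ l m A0 A1, θ ≤ l → l ≤ m → m ≤ 1 → (∀ r, l ≤ r → r ≤ m → |W r| ≤ A0 + A1 * r) →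
      -(f1 * ∫ r in l..m, (A0 + A1 * r) * ((2 + k / d) + -(k / d) * r))
        ≤ ∫ r in l..m, W r * f r := by
    intro l m A0 A1 hl hlm hm hA
    rw [← intervalIntegral.integral_const_mul, ← intervalIntegral.integral_neg]
    refine integral_mono_on hlm (Continuous.intervalIntegrable (by fun_prop) _ _)
      (cW l m hl (hl.trans hlm)) fun r hr => ?_
    have g1 := abs_ph_le S x v hp (show 0 < r by linarith [hr.1]) fun i => (hx0 i).le
    have g2 := h.chord h2 (hl.trans hr.1) (hr.2.trans hm)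
    have g3 : |f r| ≤ ((2 + k / d) + -(k / d) * r) * f1 :=
      g1.trans (mul_le_mul_of_nonneg_right g2 hf10)
    have g4 := mul_le_mul (hA r hr.1 hr.2) g3 (abs_nonneg _)
      ((abs_nonneg _).trans (hA r hr.1 hr.2))
    rw [← abs_mul] at g4
    linarith [neg_abs_le (W r * f r)]
  set m := θ + 0.7 * d with hm
  have hm1 : θ ≤ m := by linarith
  have hm2 : m ≤ 1 := by linarith
  have p1 := piece θ m (1 + cl * θ / d) (-(cl / d)) le_rfl hm1 hm2 fun r h0 h1' => by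
    obtain ⟨g1, g2⟩ := hWb r h0 (h1'.trans hm2)
    have e : 1 + cl * θ / d + -(cl / d) * r = 1 - cl * ((r - θ) / d) := by ring
    have hτ : 0 ≤ (r - θ) / d := div_nonneg (by linarith) hd0.le
    have hτ' : (r - θ) / d ≤ 0.7 := by rw [div_le_iff₀ hd0]; linarith
    rw [e, _root_.abs_le]
    constructor <;> nlinarith [mul_le_mul_of_nonneg_left hτ' (add_nonneg hcl hch)]
  have p2 := piece m 1 (1 - 0.7 * cl - ch * (0.7 + θ / d)) (ch / d) hm1 hm2 le_rfl
    fun r h0 h1' => by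
    obtain ⟨g1, g2⟩ := hWb r (hm1.trans h0) h1'
    have e : 1 - 0.7 * cl - ch * (0.7 + θ / d) + ch / d * r
      = 1 - 0.7 * cl + ch * ((r - θ) / d - 0.7) := by ring
    have hτ' : 0.7 ≤ (r - θ) / d := by rw [le_div_iff₀ hd0]; linarith
    rw [e, _root_.abs_le]
    constructor <;> nlinarith [mul_le_mul_of_nonneg_left hτ' hcl, mul_le_mul_of_nonneg_left hτ' hch]
  have hθd : θ = 1 - d := by rw [hd]; ring
  have v1 : ∫ r in θ..m, (1 + cl * θ / d + -(cl / d) * r) * ((2 + k / d) + -(k / d) * r)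
      = d * (2 * (0.7 - 0.245 * cl) + k * (0.455 - 0.392 / 3 * cl)) := by
    rw [int_lin, hm]
    clear_value d
    subst hθd
    field_simp; ring
  have v2 : ∫ r in m..1, (1 - 0.7 * cl - ch * (0.7 + θ / d) + ch / d * r)
      * ((2 + k / d) + -(k / d) * r)
      = d * (2 * (0.3 * (1 - 0.7 * cl) + 0.045 * ch)
        + k * (0.045 * (1 - 0.7 * cl) + 0.0045 * ch)) := by
    rw [int_lin, hm]
    clear_value d
    subst hθd
    field_simp; ring
  rw [v1] at p1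
  rw [v2] at p2
  have e3 := integral_add_adjacent_intervals (cW θ m le_rfl hm1) (cW m 1 hm1 hθ1.le)
  have e4 := mul_nonneg (div_nonneg hc0 hd0.le) e1
  have e5 : θ - s / (s + 1) = 1 / (s + 1) - d := by rw [hd]; field_simp; ring
  have e6 := mul_le_mul_of_nonneg_left h5 hf10
  rw [e0, e2, ← e3, e5]
  linarith

theorem psd (hs1 : s ≤ 1.16) (hθ0 : 0.783 ≤ θ)
    {ι : Type} (S : Finset ι) (b u : ι → ℝ) (hb : ∀ i, 0 < b i) :
    0 ≤ ∑ i ∈ S, ∑ j ∈ S, gk s θ (b i) (b j) * u i * u j := by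
  have hs := h.hs
  have hθ := h.hθ
  have hθ1 := h.lt_one
  have hsq : (θ ^ (-((s + 2) / 2))) ^ 2 = s + 1 := by
    rw [← rpow_natCast, ← rpow_mul hθ.le, ← h.he]; congr 1; push_cast; ring
  rcases le_total s 1 with h1 | h1
  · refine h.psd_aux (cl := 1.3) (ch := 1.47) (k := 0.83) (c0 := 1.3) (by norm_num) (by norm_num)
      (by norm_num) (fun r h0 h1' => ?_) ?_ (by norm_num) ?_ S b u hb
    · have hr : 0 < r := by linarith
      have g1 : 1 ≤ r ^ ((s + 1) / 2 - 1) :=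
        one_le_rpow_of_pos_of_le_one_of_nonpos hr h1' (by linarith)
      have g2 : r ^ ((s + 1) / 2 - 1) ≤ r ^ (-(1 / 2) : ℝ) :=
        rpow_le_rpow_of_exponent_ge hr h1' (by linarith)
      have g3 : (r ^ (-(1 / 2) : ℝ)) ^ 2 = r⁻¹ := by
        rw [← rpow_natCast, ← rpow_mul hr.le, ← rpow_neg_one]; congr 1; norm_num
      have g4 : r⁻¹ ≤ 1.1302 ^ 2 := by
        rw [inv_le_iff_one_le_mul₀ hr]; nlinarith
      have g5 : r ^ (-(1 / 2) : ℝ) ≤ 1.1302 := by
        rw [← g3] at g4; exact le_of_sq_le_sq g4 (by norm_num)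
      constructor <;> linarith
    · refine le_of_sq_le_sq ?_ (by norm_num)
      rw [hsq]; linarith
    · rw [le_div_iff₀ (by linarith)]; nlinarith
  · refine h.psd_aux (cl := 1.4) (ch := 1.432) (k := 0.94) (c0 := 1.432) (by norm_num)
      (by norm_num) (by norm_num) (fun r h0 h1' => ?_) ?_ (by norm_num) ?_ S b u hb
    · have hr : 0 < r := by linarith
      have g1 : r ^ ((s + 1) / 2 - 1) ≤ 1 := rpow_le_one hr.le h1' (by linarith)
      have g2 := rpow_neg_tangent one_pos (inv_pos.2 hr) (show 0 ≤ (s + 1) / 2 - 1 by linarith)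
      rw [one_rpow, inv_rpow hr.le, rpow_neg hr.le, inv_inv] at g2
      have g4 : r⁻¹ ≤ 1.27714 := by
        rw [inv_le_iff_one_le_mul₀ hr]; nlinarith
      have g5 : 1 ≤ r⁻¹ := (one_le_inv₀ hr).2 h1'
      have g6 : ((s + 1) / 2 - 1) * (r⁻¹ - 1) ≤ 0.08 * 0.27714 :=
        mul_le_mul (by linarith) (by linarith) (by linarith) (by norm_num)
      constructor <;> linarith
    · refine le_of_sq_le_sq ?_ (by norm_num)
      rw [hsq]; linarith
    · rw [le_div_iff₀ (by linarith)]; nlinarith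

end Pa

end Pool.Agent.Lib.MP_19b6b2_an.W
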