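import Mathlib
import Pool.Agent.Lib.MP_19b6b2_an.Upper
import Pool.Agent.Lib.MP_19b6b2_an.W.Pos
import Pool.Agent.Lib.MP_19b6b2_an.W.Avg
import Pool.Agent.Lib.MP_19b6b2_an.W.Lower

namespace Pool.Agent.Lib.MP_19b6b2_an.W

open Real Finset

noncomputable def th (s : ℝ) : ℝ := (s + 1) ^ (-(1 / (s + 2)))

lemma th_pos {s : ℝ} (hs : 0 < s) : 0 < th s := rpow_pos_of_pos (by linarith) _

lemma th_eq {s : ℝ} (hs : 0 < s) : th s ^ (-(s + 2)) = s + 1 := by
  unfold th
  rw [← rpow_mul (by linarith), show -(1 / (s + 2)) * -(s + 2) = 1 by field_simp, rpow_one]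

lemma th_ge {s : ℝ} (hs : 0 < s) (hs1 : s ≤ 1.16) : 0.783 ≤ th s := by
  by_contra hc
  have h1 : (0.783 : ℝ) ^ (-(s + 2)) ≤ s + 1 := by
    rw [← th_eq hs]
    exact rpow_le_rpow_of_nonpos (th_pos hs) (not_le.1 hc).le (by linarith)
  have h2 : (2.166 : ℝ) ≤ (0.783 : ℝ) ^ (-(79 / 25) : ℝ) := by
    refine le_of_pow_le_pow_left₀ (n := 25) (by norm_num) (by positivity) ?_
    rw [← rpow_natCast ((0.783 : ℝ) ^ _), ← rpow_mul (by norm_num),
      show (-(79 / 25) : ℝ) * ((25 : ℕ) : ℝ) = -((79 : ℕ) : ℝ) by norm_num, rpow_neg (by norm_num),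
      rpow_natCast]
    norm_num
  have h3 := rpow_neg_tangent one_pos (show (0 : ℝ) < 0.783⁻¹ by norm_num)
    (show 0 ≤ 1.16 - s by linarith)
  rw [one_rpow, inv_rpow (by norm_num), rpow_neg (by norm_num), inv_inv] at h3
  have h4 : (0.783 : ℝ) ^ (-(s + 2)) = (0.783 : ℝ) ^ (-(79 / 25) : ℝ) * 0.783 ^ (1.16 - s) := by
    rw [← rpow_add (by norm_num)]; congr 1; ring
  have h5 : 1 - (1.16 - s) * 0.2772 ≤ (0.783 : ℝ) ^ (1.16 - s) := by
    refine le_trans ?_ h3
    have : (0.783 : ℝ)⁻¹ - 1 ≤ 0.2772 := by norm_num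
    nlinarith
  have h6 := mul_le_mul h2 h5 (by nlinarith) (by positivity)
  nlinarith

lemma th_pa {s : ℝ} (hs : 0 < s) (hs1 : s ≤ 1.16) : Pa s (th s) :=
  ⟨hs, th_pos hs, th_eq hs, by nlinarith [th_ge hs hs1]⟩

noncomputable def sq2 (f : ℝ → ℝ) (b : ℝ) : ℕ → ℝ
  | 0 => b
  | k + 1 => sq2 f b k + f (sq2 f b k)

theorem exists_large {t s s' θ θ' : ℝ} (h : Pa s θ) (h' : Pa s' θ') (hss : s ≤ s')
    (hs1 : s' ≤ 1.16) (hθ0 : 0.783 ≤ θ) (hθ0' : 0.783 ≤ θ')
    (e1 : t * θ ≤ s * ((s + 2) / (s + 1) - θ)) (e2 : t * θ' < s' * ((s' + 2) / (s' + 1) - θ'))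
    (L : ℕ) : ∃ (M : ℕ → ℕ → ℝ) (σ : ℕ → ℝ) (B : ℝ), (∀ n, 0 < σ n) ∧ Antitone σ ∧ 0 ≤ B ∧
      (∀ k n, M k n = M n k) ∧ PsdN M ∧ (∀ n k, |M n k - M n (k + 1)| ≤ σ n * σ k) ∧
      (∀ n, |M n 0| ≤ B * σ n) ∧ (∀ j k n, j ≤ k → k ≤ j + L → j ≤ n → n ≤ j + L →
        t * σ j ^ 2 ≤ M k n - M (k + 1) (n + 1)) ∧
      ∃ c : ℝ, 0 < c ∧ ∀ m : ℕ, 1 ≤ m → c * (m : ℝ) ^ (-(s / (s + 2))) ≤ m * σ (2 * m) ^ 2 := by
  have hs := h.hs
  have hs' := h'.hs
  have hθ := h.hθ
  have hθ' := h'.hθ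
  have hθ1 := h.lt_one
  have hθ1' := h'.lt_one
  set δ := s' * ((s' + 2) / (s' + 1) - θ') - t * θ' with hδ
  have hδ0 : 0 < δ := by linarith
  set e0 := min (δ / 70) (min (1 - θ) (min (1 - θ') (1 / 3))) with he0
  have he00 : 0 < e0 := lt_min (by positivity) (lt_min (by linarith) (lt_min (by linarith)
    (by norm_num)))
  have he1 : e0 ≤ δ / 70 := min_le_left _ _
  have he2 : e0 ≤ 1 - θ := (min_le_right _ _).trans (min_le_left _ _)
  have he3 : e0 ≤ 1 - θ' := (min_le_right _ _).trans ((min_le_right _ _).trans (min_le_left _ _))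
  have he4 : e0 ≤ 1 / 3 := (min_le_right _ _).trans ((min_le_right _ _).trans (min_le_right _ _))
  have hL0 : (0 : ℝ) ≤ L := Nat.cast_nonneg L
  set r0 := 6 * ((L : ℝ) + 1) / e0 with hr0
  have hr1 : 1 ≤ r0 := by rw [hr0, le_div_iff₀ he00]; linarith
  set f : ℝ → ℝ := fun b => θ * b ^ (-(s + 1)) + θ' * b ^ (-(s' + 1)) with hf
  set x := sq2 f (r0 ^ 2) with hx
  have xs : ∀ k, x (k + 1) = x k + f (x k) := fun k => rfl
  have f0 : ∀ b, 0 < b → 0 < f b := fun b hb => by simp only [hf]; positivity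
  have xg : ∀ k, r0 ^ 2 ≤ x k := by
    intro k
    induction k with
    | zero => exact le_rfl
    | succ k ih => rw [xs]; linarith [f0 (x k) (by nlinarith)]
  have x1 : ∀ k, 1 ≤ x k := fun k => by nlinarith [xg k]
  have x0 : ∀ k, 0 < x k := fun k => by linarith [x1 k]
  have xm : Monotone x := monotone_nat_of_le_succ fun k => by rw [xs]; linarith [f0 _ (x0 k)]
  have fa : Antitone fun n => f (x n) := fun a b hab => by
    have g1 := rpow_le_rpow_of_nonpos (x0 a) (xm hab) (show -(s + 1) ≤ 0 by linarith)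
    have g2 := rpow_le_rpow_of_nonpos (x0 a) (xm hab) (show -(s' + 1) ≤ 0 by linarith)
    simp only [hf]
    gcongr
  have fu : ∀ k, f (x k) ≤ 2 * x k ^ (-(s + 1)) := fun k => by
    have g1 := rpow_le_rpow_of_exponent_le (x1 k) (show -(s' + 1) ≤ -(s + 1) by linarith)
    have g2 := rpow_pos_of_pos (x0 k) (-(s + 1))
    have g3 := rpow_pos_of_pos (x0 k) (-(s' + 1))
    simp only [hf]
    nlinarith
  refine ⟨fun k n => gk s θ (x k) (x n) + gk s' θ' (x k) (x n), fun n => f (x n), x 0,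
    fun n => f0 _ (x0 n), fa, (x0 0).le, fun k n => by beta_reduce; rw [gk_symm s, gk_symm s'],
    fun ι S y v => ?_, fun n k => ?_, fun n => ?_, ?_, ?_⟩
  · have g1 := h.psd (by linarith) hθ0 S (fun a => x (y a)) v fun a => x0 _
    have g2 := h'.psd hs1 hθ0' S (fun a => x (y a)) v fun a => x0 _
    simp only [add_mul, sum_add_distrib]
    exact add_nonneg g1 g2
  · have g1 := h.lip (x0 n) _ _ (x0 k).le (xm (Nat.le_succ k))
    have g2 := h'.lip (x0 n) _ _ (x0 k).le (xm (Nat.le_succ k))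
    have g3 := abs_add_le (gk s θ (x n) (x k) - gk s θ (x n) (x (k + 1)))
      (gk s' θ' (x n) (x k) - gk s' θ' (x n) (x (k + 1)))
    have g4 : x (k + 1) - x k = f (x k) := by rw [xs]; ring
    rw [Nat.succ_eq_add_one, g4] at g1 g2
    rw [add_sub_add_comm]
    refine g3.trans ((add_le_add g1 g2).trans (le_of_eq ?_))
    rw [← add_mul]
  · refine (abs_add_le _ _).trans ((add_le_add (h.abs_le (x0 n) (x0 0).le)
      (h'.abs_le (x0 n) (x0 0).le)).trans (le_of_eq ?_))
    simp only [hf]; ring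
  · have main : ∀ j k n, j ≤ k → k ≤ n → n ≤ j + L → t * f (x j) ^ 2
        ≤ gk s θ (x n) (x k) + gk s' θ' (x n) (x k)
          - (gk s θ (x (n + 1)) (x (k + 1)) + gk s' θ' (x (n + 1)) (x (k + 1))) := by
      intro j k n hjk hkn hn
      set b := x j with hb
      set σ := f b with hσ
      have hb0 : 0 < b := x0 j
      have hb1 : 1 ≤ b := x1 j
      have hσ0 : 0 < σ := f0 b hb0
      have g1 : ∀ i : ℕ, x (j + i) ≤ b + i * σ := by
        intro i
        induction i with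
        | zero => simp [hb]
        | succ i ih =>
          have := fa (show j ≤ j + i by omega)
          rw [← add_assoc, xs]; push_cast; simp only at this; linarith
      set η0 := ((L : ℝ) + 1) * σ / b with hη0
      have hη00 : 0 ≤ η0 := by positivity
      have g2 : ∀ i, i ≤ j + L + 1 → x i ≤ b * (1 + η0) := by
        intro i hi
        have := g1 (L + 1)
        have e : b * (1 + η0) = b + ((L : ℝ) + 1) * σ := by rw [hη0]; field_simp
        rw [e]
        push_cast at this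
        exact (xm (by omega)).trans this
      have g3 : ∀ p z : ℝ, 0 ≤ p → p ≤ 3 → b ≤ z → z ≤ b * (1 + η0) →
          b ^ (-p) * (1 - 3 * η0) ≤ z ^ (-p) := by
        intro p z hp hp3 h1 h2
        refine le_trans ?_ (rpow_neg_tangent hb0 (show 0 < z by linarith) hp)
        have hP := rpow_pos_of_pos hb0 (-p)
        have e : p * (b ^ (-p) / b) * (z - b) ≤ 3 * (b ^ (-p) / b) * (b * η0) :=
          mul_le_mul (mul_le_mul_of_nonneg_right hp3 (by positivity)) (by linarith) (by linarith)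
            (by positivity)
        have e' : 3 * (b ^ (-p) / b) * (b * η0) = b ^ (-p) * (3 * η0) := by field_simp
        linarith
      have g4 : ∀ i, j ≤ i → i ≤ j + L + 1 → σ * (1 - 3 * η0) ≤ f (x i) := by
        intro i h1 h2
        have a1 := mul_le_mul_of_nonneg_left
          (g3 (s + 1) (x i) (by linarith) (by linarith) (xm h1) (g2 i h2)) hθ.le
        have a2 := mul_le_mul_of_nonneg_left
          (g3 (s' + 1) (x i) (by linarith) (by linarith) (xm h1) (g2 i h2)) hθ'.le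
        simp only [hσ, hf]
        linarith
      have g5 : 6 * ((L : ℝ) + 1) * b ^ (-(1 / 2) : ℝ) ≤ e0 := by
        have a1 : b ^ (-(1 / 2) : ℝ) ≤ (r0 ^ 2) ^ (-(1 / 2) : ℝ) :=
          rpow_le_rpow_of_nonpos (by positivity) (xg j) (by norm_num)
        have a2 : (r0 ^ 2) ^ (-(1 / 2) : ℝ) = r0⁻¹ := by
          rw [← rpow_natCast, ← rpow_mul (by linarith), ← rpow_neg_one]; congr 1; norm_num
        have a3 : 6 * ((L : ℝ) + 1) * r0⁻¹ = e0 := by rw [hr0]; field_simp
        rw [← a3, ← a2]; gcongr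
      have g6 : 3 * η0 ≤ 6 * ((L : ℝ) + 1) * b ^ (-2 : ℝ) := by
        have a1 : σ ≤ 2 * b ^ (-1 : ℝ) := (fu j).trans (mul_le_mul_of_nonneg_left
          (rpow_le_rpow_of_exponent_le hb1 (by linarith)) (by norm_num))
        have a2 : b ^ (-2 : ℝ) = b ^ (-1 : ℝ) / b := by
          rw [← rpow_neg_succ hb0]; norm_num
        rw [hη0, a2, ← mul_div_assoc, ← mul_div_assoc]
        refine div_le_div_of_nonneg_right ?_ hb0.le
        nlinarith only [a1, hL0]
      have g7 : 3 * η0 ≤ e0 := g6.trans (le_trans (mul_le_mul_of_nonneg_left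
        (rpow_le_rpow_of_exponent_le hb1 (by norm_num)) (by positivity)) g5)
      set P := b ^ (-(s + 1)) with hP
      set P' := b ^ (-(s' + 1)) with hP'
      have hP0 : 0 < P := rpow_pos_of_pos hb0 _
      have hP0' : 0 < P' := rpow_pos_of_pos hb0 _
      have g8 : 3 * η0 * P ≤ e0 * P' := by
        have a1 : b ^ (-2 : ℝ) * P ≤ b ^ (-(1 / 2) : ℝ) * P' := by
          rw [hP, hP', ← rpow_add hb0, ← rpow_add hb0]
          exact rpow_le_rpow_of_exponent_le hb1 (by linarith)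
        calc _ ≤ 6 * ((L : ℝ) + 1) * b ^ (-2 : ℝ) * P := mul_le_mul_of_nonneg_right g6 hP0.le
          _ = 6 * ((L : ℝ) + 1) * (b ^ (-2 : ℝ) * P) := by ring
          _ ≤ 6 * ((L : ℝ) + 1) * (b ^ (-(1 / 2) : ℝ) * P') := by gcongr
          _ = 6 * ((L : ℝ) + 1) * b ^ (-(1 / 2) : ℝ) * P' := by ring
          _ ≤ _ := mul_le_mul_of_nonneg_right g5 hP0'.le
      have k1 : x k + f (x k) ≤ x n + f (x n) := by rw [← xs, ← xs]; exact xm (by omega)
      have k2 : x n + f (x n) ≤ b * (1 + 3 * η0) := by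
        rw [← xs]
        exact (g2 _ (by omega)).trans (mul_le_mul_of_nonneg_left (by linarith) hb0.le)
      have k0 : 0 ≤ 3 * η0 := by positivity
      have k3 : ∀ a : ℝ, a < 1 → e0 ≤ 1 - a → a * (1 + 3 * η0) ≤ 1 := fun a a1 a2 => by
        have := mul_le_of_le_one_left k0 a1.le
        linarith only [this, a2, g7]
      have k4 : ∀ a : ℝ, a ≤ 1.16 → (a + 1) * (3 * η0) ≤ 1 := fun a a1 => by
        have : (a + 1) * (3 * η0) ≤ 3 * (1 / 3) :=
          mul_le_mul (by linarith only [a1]) (g7.trans he4) k0 (by norm_num)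
        linarith only [this]
      have s1 := h.shift hb0 (xm hjk) (xm hkn) (f0 _ (x0 k)).le (f0 _ (x0 n)).le k1
        k0 k2 (k3 θ hθ1 he2) (fa hjk) (g4 k hjk (by omega))
        (g4 n (by omega) (by omega)) (k4 s (hss.trans hs1))
      have s2 := h'.shift hb0 (xm hjk) (xm hkn) (f0 _ (x0 k)).le (f0 _ (x0 n)).le k1
        k0 k2 (k3 θ' hθ1' he3) (fa hjk) (g4 k hjk (by omega))
        (g4 n (by omega) (by omega)) (k4 s' hs1)
      rw [← xs, ← xs] at s1 s2
      change P * σ * _ ≤ _ at s1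
      change P' * σ * _ ≤ _ at s2
      have c1 : 5 * (s + 1) * (s + 2) ≤ 35 := by nlinarith only [hs, hss, hs1]
      have c2 : 5 * (s' + 1) * (s' + 2) ≤ 35 := by nlinarith only [hs', hs1]
      have c3 := mul_le_mul_of_nonneg_right c1 (show 0 ≤ 3 * η0 * P by positivity)
      have c4 := mul_le_mul_of_nonneg_right c2 (show 0 ≤ 3 * η0 * P' by positivity)
      have c5 := mul_le_mul_of_nonneg_right g7 hP0'.le
      have c6 := mul_le_mul_of_nonneg_right he1 hP0'.le
      have c7 := mul_le_mul_of_nonneg_right e1 hP0.le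
      have c8 : t * σ ≤ P * (s * ((s + 2) / (s + 1) - θ) - 5 * (s + 1) * (s + 2) * (3 * η0))
          + P' * (s' * ((s' + 2) / (s' + 1) - θ') - 5 * (s' + 1) * (s' + 2) * (3 * η0)) := by
        have : σ = θ * P + θ' * P' := rfl
        have hδ' : s' * ((s' + 2) / (s' + 1) - θ') = δ + t * θ' := by rw [hδ]; ring
        rw [this, hδ']
        linarith only [c3, c4, c5, c6, c7, g8]
      have c9 := mul_le_mul_of_nonneg_right c8 hσ0.le
      linarith only [c9, s1, s2]
    intro j k n h1 h2 h3 h4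
    rcases le_total k n with hkn | hkn
    · have := main j k n h1 hkn h4
      beta_reduce
      rw [gk_symm s θ (x k), gk_symm s' θ' (x k), gk_symm s θ (x (k + 1)),
        gk_symm s' θ' (x (k + 1))]
      exact this
    · exact main j n k h3 hkn h2
  · set C := (s + 2) * 3 ^ (s + 1) * 2 with hC
    have hC0 : 0 < C := by positivity
    have hz : ∀ k : ℕ, x k ^ (s + 2) ≤ x 0 ^ (s + 2) + C * k := by
      intro k
      induction k with
      | zero => simp
      | succ k ih =>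
        have a0 := x0 k
        have a1 := rpow_diff_le (x0 k) (xm (Nat.le_succ k)) (show 0 ≤ s + 1 by linarith)
        have a2 : x k ^ (-(s + 1)) ≤ 1 := rpow_le_one_of_one_le_of_nonpos (x1 k) (by linarith)
        have a3 : x (k + 1) ≤ 3 * x k := by rw [xs]; linarith [fu k, x1 k]
        have a4 : x (k + 1) ^ (s + 1) ≤ 3 ^ (s + 1) * x k ^ (s + 1) := by
          rw [← mul_rpow (by norm_num) a0.le]
          exact rpow_le_rpow (x0 _).le a3 (by linarith)
        have a5 : x (k + 1) - x k ≤ 2 * x k ^ (-(s + 1)) := by rw [xs]; linarith [fu k]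
        have a6 : x k ^ (s + 1) * x k ^ (-(s + 1)) = 1 := by rw [← rpow_add a0]; simp
        have a7 : (s + 1 + 1) * x (k + 1) ^ (s + 1) * (x (k + 1) - x k) ≤ C := by
          calc _ ≤ (s + 1 + 1) * (3 ^ (s + 1) * x k ^ (s + 1)) * (2 * x k ^ (-(s + 1))) :=
                mul_le_mul (mul_le_mul_of_nonneg_left a4 (by linarith)) a5
                  (sub_nonneg.2 (xm (Nat.le_succ k))) (by positivity)
            _ = C * (x k ^ (s + 1) * x k ^ (-(s + 1))) := by rw [hC]; ring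
            _ = C := by rw [a6, mul_one]
        rw [Nat.succ_eq_add_one] at a1
        rw [show s + 2 = s + 1 + 1 by ring] at ih ⊢
        push_cast
        linarith
    set K := x 0 ^ (s + 2) + 2 * C with hK
    have hX := rpow_pos_of_pos (x0 0) (s + 2)
    have hK0 : 0 < K := by positivity
    refine ⟨θ ^ 2 * (K ^ (-((s + 1) / (s + 2)))) ^ 2, by positivity, fun m hm => ?_⟩
    have hm' : (1 : ℝ) ≤ m := by exact_mod_cast hm
    have hm0 : (0 : ℝ) < m := by linarith
    have a0 := x0 (2 * m)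
    have a1 : x (2 * m) ^ (s + 2) ≤ K * m := by
      have := hz (2 * m)
      push_cast at this
      rw [hK]; nlinarith
    have a2 : K ^ (-((s + 1) / (s + 2))) * (m : ℝ) ^ (-((s + 1) / (s + 2)))
        ≤ x (2 * m) ^ (-(s + 1)) := by
      have e : x (2 * m) ^ (-(s + 1)) = (x (2 * m) ^ (s + 2)) ^ (-((s + 1) / (s + 2))) := by
        rw [← rpow_mul a0.le]; congr 1; field_simp
      rw [e, ← mul_rpow hK0.le hm0.le]
      exact rpow_le_rpow_of_nonpos (by positivity) a1 (neg_nonpos.2 (by positivity))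
    have a3 : θ * (K ^ (-((s + 1) / (s + 2))) * (m : ℝ) ^ (-((s + 1) / (s + 2))))
        ≤ f (x (2 * m)) := by
      have := mul_le_mul_of_nonneg_left a2 hθ.le
      have : 0 < θ' * x (2 * m) ^ (-(s' + 1)) := by positivity
      simp only [hf]; linarith
    have a4 : (m : ℝ) ^ (-(s / (s + 2))) = m * ((m : ℝ) ^ (-((s + 1) / (s + 2)))) ^ 2 := by
      rw [← rpow_natCast, ← rpow_mul hm0.le, mul_comm, ← rpow_add_one hm0.ne']
      congr 1; push_cast; field_simp; ring
    calc _ = m * (θ * (K ^ (-((s + 1) / (s + 2))) * (m : ℝ) ^ (-((s + 1) / (s + 2))))) ^ 2 := by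
          rw [a4]; ring
      _ ≤ _ := by gcongr

end Pool.Agent.Lib.MP_19b6b2_an.W
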