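import Mathlib
import Pool.Agent.Lib.MP_19b6b2_an.Upper

namespace Pool.Agent.Lib.MP_19b6b2_an.W

open Real Finset Filter Topology

theorem seq_upper {s t L : ℝ} (hs : 0 < s) (ht0 : 0 < t) (ht1 : t ≤ 1) (hL1 : 1 ≤ L)
    (eL : L ^ s * L * L = s + 1) (ht : t = s * ((s + 2) / (s + 1) * L - 1)) (hκ : s ≤ t * L)
    (m : ℕ) (a b ρ : ℕ → ℝ) (ha0 : a 0 ≤ 1) (hb0 : b 0 = 1) (ham : 0 ≤ a m)
    (hρ : ∀ k, 0 ≤ ρ k) (has : ∀ k, a (k + 1) = a k - ρ k ^ 2) (hbs : ∀ k, b (k + 1) = b k + ρ k)
    (hstar0 : ∀ n, n < m → t * a n ≤ ρ n * b n)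
    (hstar : ∀ k n, k < n → n < m → t * a (k + 1) ≤ ρ n * b k + ρ k * (b n - b (k + 1))) :
    a m * b m ^ s ≤ s + 1 := by
  have hbm : Monotone b := monotone_nat_of_le_succ fun k => by rw [hbs]; linarith [hρ k]
  have hb1 : ∀ k, 1 ≤ b k := fun k => hb0 ▸ hbm (Nat.zero_le k)
  have hsum : ∀ k, a k = a 0 - ∑ j ∈ range k, ρ j ^ 2 := by
    intro k
    induction k with
    | zero => simp
    | succ k ih => rw [has, ih, sum_range_succ]; ring
  have hL0 : 0 < L := by linarith
  have hLs : L ^ s ≤ s + 1 := by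
    have := rpow_pos_of_pos hL0 s
    rw [← eL]; nlinarith [mul_le_mul_of_nonneg_left hL1 this.le]
  have ha0' : a m ≤ a 0 := by
    rw [hsum m]; linarith [sum_nonneg (s := range m) fun j _ => sq_nonneg (ρ j)]
  rcases le_or_gt (b m) L with hcase | hcase
  · have : b m ^ s ≤ L ^ s := rpow_le_rpow (by linarith [hb1 m]) hcase hs.le
    have h2 : 0 ≤ b m ^ s := rpow_nonneg (by linarith [hb1 m]) _
    nlinarith
  set c : ℕ → ℝ → ℝ := fun j => cl (b j) (b (j + 1)) with hc
  set A : ℝ → ℝ := fun x => a 0 - ∑ j ∈ range m, ρ j * (c j x - b j) with hA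
  set M : ℝ → ℝ := fun x => ∑ j ∈ range m, ρ j * c j x ^ (s + 1) with hM
  set R : ℝ → ℝ := fun x => ∑ j ∈ range m, ρ j * ind (b j) (b (j + 1)) x with hR
  have hc0 : ∀ j x, 0 < c j x := fun j x => by linarith [le_cl (b j) (b (j + 1)) x, hb1 j]
  have dA : ∀ x, HasDerivWithinAt A (-R x) (Set.Ici x) x := fun x =>
    (HasDerivWithinAt.fun_sum fun j _ => ((cl_deriv x).sub_const _).const_mul (ρ j)).const_sub _
  have dM : ∀ x, HasDerivWithinAt M ((s + 1) * x ^ s * R x) (Set.Ici x) x := by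
    intro x
    have := HasDerivWithinAt.fun_sum (u := range m) fun j _ =>
      ((cl_deriv (l := b j) (u := b (j + 1)) x).rpow_const (p := s + 1)
        (Or.inl (hc0 j x).ne')).const_mul (ρ j)
    refine this.congr_deriv ?_
    simp only [hR, mul_sum]
    refine sum_congr rfl fun j _ => ?_
    unfold ind
    split_ifs with h
    · rw [add_sub_cancel_right, show cl (b j) (b (j + 1)) x = x by
        simp only [cl]; rw [min_eq_left h.2.le, max_eq_right h.1]]
      ring
    · ring
  have cA : Continuous A := by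
    refine continuous_const.sub (continuous_finsetSum _ fun j _ => ?_)
    exact continuous_const.mul ((cl_cont _ _).sub continuous_const)
  have cM : Continuous M := by
    refine continuous_finsetSum _ fun j _ => continuous_const.mul ?_
    exact (cl_cont _ _).rpow_const fun x => Or.inl (hc0 j x).ne'
  have hAm : ∀ x, a m ≤ A x := by
    intro x
    rw [hsum m]
    refine sub_le_sub_left (sum_le_sum fun j _ => ?_) _
    have := cl_le (hbm (Nat.le_succ j)) x
    rw [sq]
    exact mul_le_mul_of_nonneg_left (by simp only [hc]; linarith [hbs j]) (hρ j)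
  have hloc : ∀ x, 1 ≤ x → x < b m → ∃ k, k < m ∧ b k ≤ x ∧ x < b (k + 1) := by
    intro x h1 h2
    classical
    have hex : ∃ k, x < b k := ⟨m, h2⟩
    have h3 := Nat.find_spec hex
    have h4 := Nat.find_min' hex h2
    obtain h5 | ⟨k, h5⟩ := Nat.eq_zero_or_eq_succ_pred (Nat.find hex) |>.imp_right
      fun h => (⟨_, h⟩ : ∃ k, Nat.find hex = k + 1)
    · rw [h5, hb0] at h3; linarith
    · refine ⟨k, by omega, not_lt.mp (Nat.find_min hex (by omega)), h5 ▸ h3⟩
  have hRk : ∀ x k, k < m → b k ≤ x → x < b (k + 1) → ρ k ≤ R x := by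
    intro x k hk h1 h2
    have := single_le_sum (f := fun j => ρ j * ind (b j) (b (j + 1)) x) (s := range m)
      (fun j _ => mul_nonneg (hρ j) (by unfold ind; split_ifs <;> norm_num)) (mem_range.2 hk)
    have e : ind (b k) (b (k + 1)) x = 1 := if_pos ⟨h1, h2⟩
    simp only [e, mul_one] at this
    exact this
  have hAk : ∀ x k, k < m → b k ≤ x → x < b (k + 1) → A x ≤ a k - ρ k * (x - b k) := by
    intro x k hk h1 h2
    have e1 : ∑ j ∈ range (k + 1), ρ j * (c j x - b j) ≤ ∑ j ∈ range m, ρ j * (c j x - b j) :=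
      sum_le_sum_of_subset_of_nonneg (range_subset_range.2 hk) fun j _ _ =>
        mul_nonneg (hρ j) (sub_nonneg.2 (le_cl _ _ _))
    have e2 : ∑ j ∈ range k, ρ j * (c j x - b j) = ∑ j ∈ range k, ρ j ^ 2 := by
      refine sum_congr rfl fun j hj => ?_
      have : b (j + 1) ≤ x := (hbm (show j + 1 ≤ k from mem_range.mp hj)).trans h1
      simp only [hc, cl]
      rw [min_eq_right this, max_eq_right (hbm (Nat.le_succ j)), hbs]; ring
    have e3 : c k x = x := by simp only [hc, cl]; rw [min_eq_left h2.le, max_eq_right h1]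
    rw [sum_range_succ, e2, e3] at e1
    simp only [hA]
    rw [hsum k]; linarith
  have eL2 : L ^ s * L = (s + 1) / L := by rw [eq_div_iff hL0.ne', eL]
  set κ := s * L / (t * (s + 1) ^ 2) with hκd
  have hκ0 : 0 ≤ κ := by positivity
  set X := b m / L with hX
  have hX1 : 1 ≤ X := (one_le_div hL0).2 hcase.le
  set Φ : ℝ → ℝ := fun x => x ^ s * A x - (M (L * x) - M x) * κ with hΦ
  have hmono := image_le_of_deriv_right_le_deriv_boundary (f := Φ) (a := 1) (b := X)
    (f' := fun x => (1 * s * x ^ (s - 1) * A x + x ^ s * (-R x))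
      - ((s + 1) * (L * x) ^ s * R (L * x) * L - (s + 1) * x ^ s * R x) * κ)
    ?_ ?_ (B := fun _ => Φ 1) (B' := fun _ => 0) le_rfl continuousOn_const
    (fun x _ => hasDerivWithinAt_const _ _ _) ?_ (show X ∈ Set.Icc 1 X from ⟨hX1, le_rfl⟩)
  · have hX0 : 0 < X := by linarith
    have f1 : Φ 1 ≤ 1 := by
      have g1 : M 1 ≤ M (L * 1) := sum_le_sum fun j _ => mul_le_mul_of_nonneg_left
        (rpow_le_rpow (hc0 j 1).le (cl_mono _ _ (by linarith)) (by linarith)) (hρ j)
      have g2 : A 1 ≤ a 0 := sub_le_self _ (sum_nonneg fun j _ =>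
        mul_nonneg (hρ j) (sub_nonneg.2 (le_cl _ _ _)))
      have g3 : 0 ≤ (M (L * 1) - M 1) * κ := mul_nonneg (by linarith) hκ0
      simp only [hΦ, one_rpow]
      linarith
    have f2 : M (L * X) - M X ≤ (s + 1) * (L * X) ^ s * (A X - A (L * X)) := by
      have e : A X - A (L * X) = ∑ j ∈ range m, ρ j * (c j (L * X) - c j X) := by
        simp only [hA, mul_sub, sum_sub_distrib]; ring
      rw [e, mul_sum]
      simp only [hM]
      rw [← sum_sub_distrib]
      refine sum_le_sum fun j _ => ?_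
      rw [← mul_sub, mul_left_comm]
      refine mul_le_mul_of_nonneg_left ?_ (hρ j)
      have hXL : X ≤ L * X := by nlinarith
      have g1 : c j X ≤ c j (L * X) := cl_mono _ _ hXL
      rcases le_or_gt (b j) (L * X) with g2 | g2
      · refine (rpow_diff_le (hc0 j X) g1 hs.le).trans ?_
        have g3 : c j (L * X) ≤ L * X := max_le g2 (min_le_left _ _)
        have g4 := rpow_le_rpow (hc0 j _).le g3 hs.le
        gcongr
      · have g3 : c j (L * X) = b j := max_eq_left ((min_le_left _ _).trans g2.le)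
        have g4 : c j X = b j := max_eq_left ((min_le_left _ _).trans (hXL.trans g2.le))
        rw [g3, g4]; simp
    have f4 := hAm (L * X)
    have hP : 0 < X ^ s := rpow_pos_of_pos hX0 s
    rw [mul_rpow hL0.le hX0.le] at f2
    have f5 : (s + 1) * L ^ s * κ ≤ 1 := by
      have g1 : L ^ s = (s + 1) / L / L := by rw [← eL2]; field_simp
      have g2 : (s + 1) * L ^ s * κ = s / (t * L) := by rw [g1, hκd]; field_simp
      rw [g2, div_le_one (by positivity)]; exact hκ
    have f5' : 0 ≤ A X - A (L * X) := by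
      have e : A X - A (L * X) = ∑ j ∈ range m, ρ j * (c j (L * X) - c j X) := by
        simp only [hA, mul_sub, sum_sub_distrib]; ring
      rw [e]
      exact sum_nonneg fun j _ => mul_nonneg (hρ j) (sub_nonneg.2 (cl_mono _ _ (by nlinarith)))
    have f6 : (M (L * X) - M X) * κ ≤ X ^ s * (A X - A (L * X)) := by
      have g1 := mul_le_mul_of_nonneg_right f2 hκ0
      have g2 := mul_le_mul_of_nonneg_right f5 (mul_nonneg hP.le f5')
      linarith
    have f7 : X ^ s * A (L * X) ≤ 1 := by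
      have : X ^ s * A X - (M (L * X) - M X) * κ ≤ Φ 1 := hmono
      linarith
    have f8 : b m = L * X := by rw [hX]; field_simp
    rw [f8, mul_rpow hL0.le hX0.le]
    have f9 : X ^ s * a m ≤ X ^ s * A (L * X) := mul_le_mul_of_nonneg_left f4 hP.le
    have f10 : 0 ≤ X ^ s * a m := mul_nonneg hP.le ham
    have f11 := mul_le_mul hLs (f9.trans f7) f10 (by linarith)
    linarith
  · refine ContinuousOn.sub (ContinuousOn.mul ?_ cA.continuousOn) (Continuous.continuousOn ?_)
    · exact continuousOn_id.rpow_const fun x hx => Or.inr hs.le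
    · exact ((cM.comp (continuous_const.mul continuous_id)).sub cM).mul continuous_const
  · intro x hx
    have hx0 : 0 < x := by linarith [hx.1]
    have d1 : HasDerivWithinAt (fun y => L * y) L (Set.Ici x) x := by
      simpa using (hasDerivWithinAt_id x (Set.Ici x)).const_mul L
    have d2 := (dM (L * x)).comp x d1 fun y hy => mul_le_mul_of_nonneg_left hy hL0.le
    exact (((hasDerivWithinAt_id x _).rpow_const (Or.inl hx0.ne')).mul (dA x)).sub
      ((d2.sub (dM x)).mul_const _)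
  · intro x hx
    have hx0 : 0 < x := by linarith [hx.1]
    have hxL : x ≤ L * x := by nlinarith
    have hLx : L * x < b m := by
      have := hx.2
      rw [hX, lt_div_iff₀ hL0] at this
      linarith
    obtain ⟨k, hk, k1, k2⟩ := hloc x hx.1 (by linarith)
    obtain ⟨n, hn, n1, n2⟩ := hloc (L * x) (by linarith [hx.1]) hLx
    have hkn : k ≤ n := by
      by_contra hc
      have := hbm (show n + 1 ≤ k by omega)
      linarith
    have g2 := hRk x k hk k1 k2
    have g3 := hRk _ n hn n1 n2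
    have g4 := mul_le_mul_of_nonneg_left (hAk x k hk k1 k2) ht0.le
    have g5 : t * A x ≤ x * R (L * x) + (L - 1) * x * R x := by
      have i1 : ρ n * b k ≤ R (L * x) * x := mul_le_mul g3 k1 (by linarith [hb1 k]) ((hρ n).trans g3)
      have i3 : (L - 1) * x * ρ k ≤ (L - 1) * x * R x :=
        mul_le_mul_of_nonneg_left g2 (by nlinarith)
      rcases hkn.eq_or_lt with rfl | hkn'
      · have g1 := hstar0 k hk
        have i4 : 0 ≤ (L - 1) * x * ρ k := mul_nonneg (by nlinarith) (hρ k)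
        have i5 : 0 ≤ t * (ρ k * (x - b k)) := mul_nonneg ht0.le (mul_nonneg (hρ k) (by linarith))
        linarith
      · have g1 := hstar k n hkn' hn
        have i2 : ρ k * (b n - b (k + 1)) ≤ ρ k * (L * x - b (k + 1)) :=
          mul_le_mul_of_nonneg_left (by linarith) (hρ k)
        have i4 : t * (ρ k * (b (k + 1) - x)) ≤ ρ k * (b (k + 1) - x) :=
          mul_le_of_le_one_left (mul_nonneg (hρ k) (by linarith)) ht1
        rw [has, hbs] at g1
        rw [hbs] at i2 i4
        linarith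
    have e1 : x ^ s = x ^ (s - 1) * x := by rw [← rpow_add_one hx0.ne']; congr 1; ring
    have hP : 0 < x ^ (s - 1) := rpow_pos_of_pos hx0 _
    have e2 : (1 * s * x ^ (s - 1) * A x + x ^ s * (-R x))
      - ((s + 1) * (L * x) ^ s * R (L * x) * L - (s + 1) * x ^ s * R x) * κ
      = s / t * x ^ (s - 1) * (t * A x - (x * R (L * x) + (L - 1) * x * R x)) := by
      rw [mul_rpow hL0.le hx0.le, e1]
      have e3 : (s + 1) * (L ^ s * (x ^ (s - 1) * x)) * R (L * x) * L
          = (s + 1) * (L ^ s * L) * (x ^ (s - 1) * x) * R (L * x) := by ring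
      rw [e3, eL2]
      generalize R (L * x) = r1
      have e4 : κ * (s + 1) = 1 - s / t * (L - 1) := by
        rw [hκd, eq_sub_iff_add_eq]
        field_simp
        rw [ht]; field_simp; ring
      have e5 : κ * ((s + 1) * ((s + 1) / L)) = s / t := by rw [hκd]; field_simp
      have e6 : s / t * t = s := by field_simp
      linear_combination (x ^ (s - 1) * x * R x) * e4 - (x ^ (s - 1) * x * r1) * e5
        - (x ^ (s - 1) * A x) * e6
    change _ ≤ (0 : ℝ)
    rw [e2]
    exact mul_nonpos_of_nonneg_of_nonpos (by positivity) (by linarith)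

theorem seq_upper2 {t : ℝ} (ht0 : 0 < t) (ht1 : t ≤ 1) (m : ℕ) (a b ρ : ℕ → ℝ) (ha0 : a 0 ≤ 1)
    (hb0 : b 0 = 1) (ha : ∀ k, 0 ≤ a k)
    (hρ : ∀ k, 0 ≤ ρ k) (has : ∀ k, a (k + 1) = a k - ρ k ^ 2) (hbs : ∀ k, b (k + 1) = b k + ρ k)
    (hstar : ∀ n, n < m → t * a n ≤ ρ n * b n) : a m * (t ^ 2 * m + 1) ≤ b m ^ 2 := by
  have hbm : Monotone b := monotone_nat_of_le_succ fun k => by rw [hbs]; linarith [hρ k]
  have hb1 : ∀ k, 1 ≤ b k := fun k => hb0 ▸ hbm (Nat.zero_le k)
  induction m with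
  | zero => simpa [hb0] using ha0
  | succ m ih =>
    have h1 := ih fun n hn => hstar n (by omega)
    have h2 := hstar m (by omega)
    have h3 := hb1 m
    have h4 : b m ^ 2 ≤ b (m + 1) ^ 2 := by gcongr; exact hbm (Nat.le_succ m)
    refine le_trans ?_ h4
    have h5 : (t * a m) ^ 2 ≤ (ρ m * b m) ^ 2 :=
      pow_le_pow_left₀ (mul_nonneg ht0.le (ha m)) h2 2
    have hb2 : 0 < b m ^ 2 := by positivity
    set u := a m / b m ^ 2 with hu
    have e : a m = u * b m ^ 2 := by rw [hu]; field_simp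
    have t0 : 0 ≤ u := div_nonneg (ha m) hb2.le
    have hm : (0 : ℝ) ≤ m := Nat.cast_nonneg m
    have t1 : u * (t ^ 2 * m + 1) ≤ 1 := by
      rw [e] at h1
      have : u * (t ^ 2 * m + 1) * b m ^ 2 ≤ 1 * b m ^ 2 := by linarith
      exact le_of_mul_le_mul_right this hb2
    have t2 : t ^ 2 * u ^ 2 * b m ^ 2 ≤ ρ m ^ 2 := by
      rw [e] at h5
      have : t ^ 2 * u ^ 2 * b m ^ 2 * b m ^ 2 ≤ ρ m ^ 2 * b m ^ 2 := by linarith
      exact le_of_mul_le_mul_right this hb2
    have t4 : t ^ 2 * u ≤ 1 := by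
      have q1 : u ≤ 1 := by nlinarith [mul_nonneg t0 (mul_nonneg (sq_nonneg t) hm)]
      have q2 : t ^ 2 ≤ 1 := by nlinarith
      nlinarith
    have t3 : (u - t ^ 2 * u ^ 2) * (t ^ 2 * (m + 1) + 1) ≤ 1 := by
      nlinarith [mul_nonneg (sub_nonneg.2 t1) (sub_nonneg.2 t4), sq_nonneg (t ^ 2 * u)]
    rw [has, e]
    push_cast
    calc _ ≤ (u - t ^ 2 * u ^ 2) * b m ^ 2 * (t ^ 2 * (m + 1) + 1) := by
          refine mul_le_mul_of_nonneg_right ?_ (by positivity); linarith
      _ = (u - t ^ 2 * u ^ 2) * (t ^ 2 * (m + 1) + 1) * b m ^ 2 := by ring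
      _ ≤ _ := mul_le_of_le_one_left hb2.le t3

theorem seq_upper3 {s t : ℝ} (hs : 0 < s) (ht0 : 0 < t) (ht1 : t ≤ 1) {m : ℕ} (hm : 1 ≤ m)
    {a b : ℝ} (ha : 0 ≤ a) (hb : 1 ≤ b) (h1 : a * b ^ s ≤ s + 1) (h2 : a * (t ^ 2 * m + 1) ≤ b ^ 2) :
    a ≤ (s + 1) / t ^ 2 * (m : ℝ) ^ (-(s / (s + 2))) := by
  have hm' : (1 : ℝ) ≤ m := by exact_mod_cast hm
  have hm0 : (0 : ℝ) < m := by linarith
  set T := (m : ℝ) ^ (-(s / (s + 2))) with hT
  have hT0 : 0 < T := rpow_pos_of_pos hm0 _
  by_contra hc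
  push Not at hc
  have hc' : (s + 1) * T < a * t ^ 2 := by
    rwa [div_mul_eq_mul_div, div_lt_iff₀ (by positivity)] at hc
  have hc2 : (s + 1) * T < a := by
    have : a * t ^ 2 ≤ a := mul_le_of_le_one_right ha (by nlinarith)
    linarith
  have e1 : T * m ≤ b ^ 2 := by
    nlinarith [mul_le_mul_of_nonneg_right hc'.le hm0.le, mul_pos hs (mul_pos hT0 hm0)]
  have e2 : (T * m) ^ (s / 2) ≤ b ^ s := by
    calc _ ≤ (b ^ 2) ^ (s / 2) := rpow_le_rpow (by positivity) e1 (by positivity)
      _ = b ^ s := by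
        rw [← rpow_natCast, ← rpow_mul (by linarith)]; congr 1; push_cast; ring
  have e3 : T * (T * m) ^ (s / 2) = 1 := by
    rw [hT, ← rpow_add_one hm0.ne', ← rpow_mul hm0.le, ← rpow_add hm0]
    have : s + 2 ≠ 0 := by linarith
    rw [show -(s / (s + 2)) + (-(s / (s + 2)) + 1) * (s / 2) = 0 by field_simp; ring, rpow_zero]
  have e4 : 0 < (T * m) ^ (s / 2) := by positivity
  nlinarith [mul_le_mul_of_nonneg_left e2 ha, mul_lt_mul_of_pos_right hc2 e4]

end Pool.Agent.Lib.MP_19b6b2_an.W
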