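import Mathlib
import Pool.Agent.Lib.MP_19b6b2_an.W.Inst
import Pool.Agent.Lib.MP_19b6b2_an.W.Up

namespace Pool.Agent.Lib.MP_19b6b2_an.W

open Real Finset Filter Topology
open scoped InnerProductSpace

variable {H : Type*} [NormedAddCommGroup H] [InnerProductSpace ℝ H]

noncomputable def Tf (s : ℝ) : ℝ := s * ((s + 2) / (s + 1) * (th s)⁻¹ - 1)

lemma th_inv {s : ℝ} (hs : 0 ≤ s) : (th s)⁻¹ = (1 + s) ^ (1 / (2 + s)) := by
  unfold th
  rw [rpow_neg (by linarith), inv_inv, add_comm s 1, add_comm s 2]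

lemma root_iff' {s t : ℝ} (hs : 0 < s) :
    (1 + s) ^ (1 / (2 + s)) * (1 + 1 / (1 + s)) = 1 + t / s ↔ t = Tf s := by
  rw [Tf, th_inv hs.le]
  have e : (s + 2) / (s + 1) = 1 + 1 / (1 + s) := by field_simp; ring
  rw [e]
  constructor
  · intro h; rw [mul_comm (1 + 1 / (1 + s)), h]; field_simp; ring
  · intro h; rw [h]; field_simp; ring

lemma Tf_big {s : ℝ} (hc : 1.16 ≤ s) : 1 < Tf s := by
  have hs0 : 0 < s := by linarith
  have l2' := log_two_gt_d9
  have a1 : 0.77 ≤ log (1 + s) := by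
    have e : log (2.16 : ℝ) = log 2 + log (1 + 0.08) := by
      rw [← log_mul (by norm_num) (by positivity)]; congr 1; norm_num
    have := le_log_one_add_of_nonneg (show (0 : ℝ) ≤ 0.08 by norm_num)
    have b : log (2.16 : ℝ) ≤ log (1 + s) := log_le_log (by norm_num) (by linarith)
    norm_num at this e b ⊢
    linarith
  have a2 := log_le_half (show 1 ≤ lam s by rw [lam_eq hs0]; simp; positivity)
  have a3 : (2 + s) * ((lam s - (lam s)⁻¹) / 2)
      = (2 * s ^ 2 + 4 * s + 1) / (2 * s * (s + 1) ^ 2) := by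
    unfold lam; field_simp; ring
  have a4 : (2 * s ^ 2 + 4 * s + 1) / (2 * s * (s + 1) ^ 2) < 0.77 := by
    rw [div_lt_iff₀ (by positivity)]; nlinarith [mul_nonneg (sub_nonneg.2 hc) (sq_nonneg s)]
  have a5 := mul_le_mul_of_nonneg_left a2 (show 0 ≤ 2 + s by positivity)
  have a6 : lam s < (th s)⁻¹ := by
    rw [th_inv hs0.le, rpow_def_of_pos (by linarith), ← exp_log (lam_pos hs0), exp_lt_exp,
      mul_one_div, lt_div_iff₀ (by linarith)]
    linarith
  have a7 : s * ((s + 2) / (s + 1) * lam s - 1) = 1 := by unfold lam; field_simp; ring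
  rw [← a7, Tf]
  gcongr

lemma Tf_root {t : ℝ} (ht0 : 0 < t) (ht1 : t ≤ 1) : ∃ s, 0 < s ∧ s < 1.16 ∧ t = Tf s := by
  have hc : ContinuousOn Tf (Set.Icc 0 1.16) := by
    refine ContinuousOn.congr (f := fun s : ℝ => s * ((s + 2) / (s + 1) * (1 + s) ^ (1 / (2 + s)) - 1))
      (fun s hs => ContinuousAt.continuousWithinAt ?_) fun s hs => by rw [Tf, th_inv hs.1]
    have h0 := hs.1
    refine continuousAt_id.mul (ContinuousAt.sub (ContinuousAt.mul ?_ ?_) continuousAt_const)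
    · exact ContinuousAt.div (by fun_prop) (by fun_prop) (by positivity)
    · exact ContinuousAt.rpow (by fun_prop)
        (ContinuousAt.div (by fun_prop) (by fun_prop) (by positivity)) (Or.inl (by positivity))
  obtain ⟨s, hs, h⟩ := intermediate_value_Ioo (show (0 : ℝ) ≤ 1.16 by norm_num) hc
    (show t ∈ Set.Ioo (Tf 0) (Tf 1.16) from ⟨by simpa [Tf] using ht0,
      ht1.trans_lt (Tf_big le_rfl)⟩)
  exact ⟨s, hs.1, hs.2, h.symm⟩

lemma Pa.sq_le {s θ : ℝ} (h : Pa s θ) (hs1 : s ≤ 1.16) : (s + 1) * (θ ^ 2 + θ) ≤ s + 2 := by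
  have hs := h.hs
  have hθ := h.hθ
  rcases le_total s 1 with h1 | h1
  · have key : ∀ p : ℝ, 0 ≤ p → p ≤ s + 2 → θ ^ (-p) ≤ 1 + p / (s + 2) * s := by
      intro p hp hp'
      have := rpow_one_add_le_one_add_mul_self (s := s) (by linarith) (p := p / (s + 2))
        (by positivity) (by rwa [div_le_one (by linarith)])
      rw [add_comm 1 s, ← h.he, ← rpow_mul hθ.le,
        show -(s + 2) * (p / (s + 2)) = -p by field_simp] at this
      exact this
    have k0 := key s hs.le (by linarith)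
    have k1 := key (s + 1) (by linarith) (by linarith)
    rw [h.e0] at k0
    rw [h.e1] at k1
    have k2 : (s / (s + 2) + (s + 1) / (s + 2)) * s ≤ s := by
      refine mul_le_of_le_one_left hs.le ?_
      rw [← add_div, div_le_one (by linarith)]; linarith
    linarith
  · have k0 : θ ≤ 0.8 := by
      by_contra hc
      have g1 : s + 1 ≤ (0.8 : ℝ) ^ (-(s + 2)) := by
        rw [← h.he]
        exact rpow_le_rpow_of_nonpos (by norm_num) (not_le.1 hc).le (by linarith)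
      have g2 := rpow_neg_tangent one_pos (show (0 : ℝ) < 0.8⁻¹ by norm_num)
        (show 0 ≤ s - 1 by linarith)
      rw [one_rpow, inv_rpow (by norm_num), rpow_neg (by norm_num), inv_inv] at g2
      have g3 : (0.8 : ℝ) ^ (-(s + 2)) * 0.8 ^ (s - 1) = 125 / 64 := by
        rw [← rpow_add (by norm_num), show -(s + 2) + (s - 1) = -((3 : ℕ) : ℝ) by push_cast; ring,
          rpow_neg (by norm_num), rpow_natCast]
        norm_num
      have g4 : 1 - (s - 1) / 4 ≤ (0.8 : ℝ) ^ (s - 1) := by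
        refine le_trans (le_of_eq ?_) g2
        norm_num; ring
      have g5 := mul_le_mul g1 g4 (by linarith) (by positivity)
      nlinarith
    have k1 : θ ^ 2 + θ ≤ 1.44 := by nlinarith
    nlinarith

theorem wga_upper {s t : ℝ} (hs : 0 < s) (hs1 : s ≤ 1.16) (ht0 : 0 < t) (ht1 : t ≤ 1)
    (ht : t = Tf s) {D : Set H} {f : H} {φ : ℕ → H} {m : ℕ} (hm : 1 ≤ m)
    (hD : IsDictionary D) (hf : f ∈ A1 D) (hφ : IsWeakRealization t D f φ) :
    ‖f - approx f φ m‖ ^ 2 ≤ (s + 1) / t ^ 2 * (m : ℝ) ^ (-(s / (s + 2))) := by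
  set r : ℕ → H := fun k => f - approx f φ k with hr
  have hφ' : ∀ k, φ k ∈ D ∧ ∀ g ∈ D, t * |⟪r k, g⟫_ℝ| ≤ |⟪r k, φ k⟫_ℝ| := hφ
  set ρ : ℕ → ℝ := fun k => |⟪r k, φ k⟫_ℝ| with hρ
  set a : ℕ → ℝ := fun k => ‖r k‖ ^ 2 with ha
  set b : ℕ → ℝ := fun k => 1 + ∑ j ∈ range k, ρ j with hb
  have hρ0 : ∀ k, 0 ≤ ρ k := fun k => abs_nonneg _
  have hrs : ∀ k, r (k + 1) = r k - ⟪r k, φ k⟫_ℝ • φ k := res_succ f φ
  have hbs : ∀ k, b (k + 1) = b k + ρ k := fun k => by simp only [hb, sum_range_succ]; ring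
  have has : ∀ k, a (k + 1) = a k - ρ k ^ 2 := by
    intro k
    simp only [ha, hρ]
    rw [hrs, norm_sub_sq_real, norm_smul, hD.1 _ (hφ' k).1, real_inner_smul_right, sq_abs,
      mul_one, norm_eq_abs, sq_abs]
    ring
  have hr0 : r 0 = f := by simp [hr, approx]
  have ha0 : a 0 ≤ 1 := by
    have h2 := inner_le_of_A1 (h := f) hf (norm_nonneg f) fun g hg => by
      simpa [hD.1 g hg] using abs_real_inner_le_norm f g
    rw [real_inner_self_eq_norm_sq, abs_of_nonneg (sq_nonneg _)] at h2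
    simp only [ha, hr0]
    nlinarith [norm_nonneg f]
  have e3 : ∀ k n, |t * (⟪r k, φ k⟫_ℝ * ⟪r n, φ k⟫_ℝ)| ≤ ρ k * ρ n := by
    intro k n
    rw [abs_mul, abs_mul, abs_of_pos ht0, mul_left_comm]
    exact mul_le_mul_of_nonneg_left ((hφ' n).2 _ (hφ' k).1) (abs_nonneg _)
  have h1 : ∀ n k, t * ⟪r n, r k⟫_ℝ ≤ ρ n * b k := by
    intro n k
    induction k with
    | zero =>
      have := inner_le_of_A1 (h := r n) hf (div_nonneg (hρ0 n) ht0.le) fun g hg => by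
        rw [le_div_iff₀' ht0]; exact (hφ' n).2 g hg
      rw [le_div_iff₀' ht0] at this
      rw [hr0]
      simpa [hb] using (mul_le_mul_of_nonneg_left (le_abs_self _) ht0.le).trans this
    | succ k ih =>
      rw [hrs, inner_sub_right, real_inner_smul_right, hbs]
      linarith [(abs_le.1 (e3 k n)).1]
  have h2 : ∀ k n, k + 1 ≤ n → t * a (k + 1) - ρ k * (b n - b (k + 1)) ≤ t * ⟪r k, r n⟫_ℝ := by
    intro k n hkn
    induction n, hkn using Nat.le_induction with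
    | base =>
      rw [has, hrs, inner_sub_right, real_inner_smul_right, real_inner_self_eq_norm_sq]
      simp only [ha, hρ, sq_abs]
      exact le_of_eq (by ring)
    | succ n hkn ih =>
      rw [hrs n, inner_sub_right, real_inner_smul_right, hbs n]
      linarith [(abs_le.1 (e3 n k)).2]
  have hstar0 : ∀ n, t * a n ≤ ρ n * b n := fun n => by
    simpa only [real_inner_self_eq_norm_sq] using h1 n n
  have hstar : ∀ k n, k < n → t * a (k + 1) ≤ ρ n * b k + ρ k * (b n - b (k + 1)) := by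
    intro k n hkn
    have e1 := h1 n k
    have e2 := h2 k n hkn
    rw [real_inner_comm] at e1
    linarith
  have hb0 : b 0 = 1 := by simp [hb]
  have hp := th_pa hs hs1
  have hθ := hp.hθ
  have eL : (th s)⁻¹ ^ s * (th s)⁻¹ * (th s)⁻¹ = s + 1 := by
    rw [inv_rpow hθ.le, ← rpow_neg hθ.le, hp.e0]; field_simp
  have hκ : s ≤ t * (th s)⁻¹ := by
    have := hp.sq_le hs1
    rw [ht, Tf, mul_assoc]
    refine le_mul_of_one_le_right hs.le ?_
    rw [← div_eq_mul_inv, ← div_eq_mul_inv, one_le_div hθ, le_sub_iff_add_le, le_div_iff₀ hθ,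
      le_div_iff₀ (by linarith)]
    linarith
  have u1 := seq_upper hs ht0 ht1 ((one_le_inv₀ hθ).2 hp.lt_one.le) eL ht hκ m a b ρ ha0 hb0
    (sq_nonneg _) hρ0 has hbs (fun n _ => hstar0 n) fun k n h _ => hstar k n h
  have u2 := seq_upper2 ht0 ht1 m a b ρ ha0 hb0 (fun k => sq_nonneg _) hρ0 has hbs
    fun n _ => hstar0 n
  exact seq_upper3 hs ht0 ht1 hm (sq_nonneg _)
    (le_add_of_nonneg_right (sum_nonneg fun j _ => hρ0 j)) u1 u2

theorem wga_lower' (hH : ¬ FiniteDimensional ℝ H) {s t : ℝ} (hs : 0 < s) (hs1 : s ≤ 1.16)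
    (ht0 : 0 < t) (ht1 : t ≤ 1) (ht : t = Tf s) : ∃ c : ℝ, 0 < c ∧ ∀ m : ℕ, 1 ≤ m →
      ∃ (D : Set H) (f : H) (φ : ℕ → H), IsDictionary D ∧ f ∈ A1 D ∧ IsWeakRealization t D f φ ∧
        c * (m : ℝ) ^ (-(s / (s + 2))) ≤ ‖f - approx f φ m‖ ^ 2 := by
  have hs' : (0 : ℝ) < 1.16 := by norm_num
  have e : ∀ u : ℝ, 0 < u → Tf u * th u = u * ((u + 2) / (u + 1) - th u) := fun u hu => by
    have := th_pos hu
    unfold Tf; field_simp
  obtain ⟨L, hL⟩ := exists_nat_ge (2 / t)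
  rw [div_le_iff₀' ht0] at hL
  obtain ⟨M, σ, B, h1, h2, h3, h4, h5, h6, h7, h8, c, hc, hc'⟩ := exists_large (t := t)
    (th_pa hs hs1) (th_pa hs' le_rfl) hs1 le_rfl (th_ge hs hs1) (th_ge hs' le_rfl)
    (by rw [ht, e s hs]) (by
      rw [← e _ hs']
      exact mul_lt_mul_of_pos_right (ht1.trans_lt (Tf_big le_rfl)) (th_pos hs')) L
  obtain ⟨G, R, C, g0, g1, g2, g3, g4, g5, g6, g7, g8, g9⟩ :=
    avg_kernel ht0 ht1 M σ B L hL h1 h2 h3 h4 h5 h6 h7 h8
  refine ⟨t * c / C ^ 2, by positivity, fun m hm => ?_⟩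
  obtain ⟨D, f, φ, k1, k2, k3, k4⟩ := wga_lower hH ht1 G R C g0 g1 g2 g3 g4 g5 g6 g7 g8 m
  refine ⟨D, f, φ, k1, k2, k3, ?_⟩
  rw [k4, div_mul_eq_mul_div]
  refine div_le_div_of_nonneg_right (le_trans ?_ (g9 m)) (sq_nonneg _)
  rw [mul_assoc, mul_assoc]
  exact mul_le_mul_of_nonneg_left (hc' m hm) ht0.le

theorem bounds (H : Type*) [NormedAddCommGroup H] [InnerProductSpace ℝ H]
    (hH : ¬ FiniteDimensional ℝ H) {s t : ℝ} (hs : 0 < s) (hs1 : s ≤ 1.16)
    (ht0 : 0 < t) (ht1 : t ≤ 1) (ht : t = Tf s) :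
    ∃ c C : ℝ, 0 < c ∧ c ≤ C ∧ ∀ m : ℕ, 1 ≤ m →
      c * (m : ℝ) ^ (-(s / (2 * (2 + s)))) ≤ weakError H t m ∧
        weakError H t m ≤ C * (m : ℝ) ^ (-(s / (2 * (2 + s)))) := by
  obtain ⟨c, hc, hc'⟩ := wga_lower' hH hs hs1 ht0 ht1 ht
  have hsq : ∀ m : ℕ, ((m : ℝ) ^ (-(s / (2 * (2 + s))))) ^ 2 = (m : ℝ) ^ (-(s / (s + 2))) := by
    intro m
    rw [← rpow_natCast, ← rpow_mul (Nat.cast_nonneg m)]
    congr 1
    push_cast; field_simp; ring
  set C := √((s + 1) / t ^ 2) with hC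
  have hC0 : 0 < C := by positivity
  refine ⟨min (√c) C, C, lt_min (by positivity) hC0, min_le_right _ _, fun m hm => ?_⟩
  have hm0 : (0 : ℝ) < m := by exact_mod_cast hm
  have hT : 0 < (m : ℝ) ^ (-(s / (2 * (2 + s)))) := rpow_pos_of_pos hm0 _
  have hup : ∀ e ∈ {e | ∃ (D : Set H) (f : H) (φ : ℕ → H),
      IsDictionary D ∧ f ∈ A1 D ∧ IsWeakRealization t D f φ ∧ e = ‖f - approx f φ m‖},
      e ≤ C * (m : ℝ) ^ (-(s / (2 * (2 + s)))) := by
    rintro _ ⟨D, f, φ, h1, h2, h3, rfl⟩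
    refine le_of_sq_le_sq ?_ (by positivity)
    rw [mul_pow, hsq, hC, sq_sqrt (by positivity)]
    exact wga_upper hs hs1 ht0 ht1 ht hm h1 h2 h3
  refine ⟨?_, Real.sSup_le hup (by positivity)⟩
  obtain ⟨D, f, φ, h1, h2, h3, h4⟩ := hc' m hm
  refine le_trans ?_ (le_csSup ⟨_, hup⟩ ⟨D, f, φ, h1, h2, h3, rfl⟩)
  refine le_trans (mul_le_mul_of_nonneg_right (min_le_left _ _) hT.le) ?_
  refine le_of_sq_le_sq ?_ (norm_nonneg _)
  rw [mul_pow, hsq, sq_sqrt hc.le]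
  exact h4

lemma exponent_le {α β c C : ℝ} (hc : 0 < c)
    (h : ∀ m : ℕ, 1 ≤ m → c * (m : ℝ) ^ (-α) ≤ C * (m : ℝ) ^ (-β)) : β ≤ α := by
  by_contra hlt
  push Not at hlt
  have t := (tendsto_rpow_atTop (sub_pos.2 hlt)).comp (tendsto_natCast_atTop_atTop (R := ℝ))
  obtain ⟨m, hm1, hm2⟩ := ((t.eventually_gt_atTop (C / c)).and (eventually_ge_atTop 1)).exists
  have hm0 : (0 : ℝ) < m := by exact_mod_cast hm2
  have e : (m : ℝ) ^ (-α) = (m : ℝ) ^ (β - α) * (m : ℝ) ^ (-β) := by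
    rw [← rpow_add hm0]; congr 1; ring
  have h1 := h m hm2
  rw [e, ← mul_assoc] at h1
  have h2 := le_of_mul_le_mul_right h1 (rpow_pos_of_pos hm0 _)
  simp only [Function.comp] at hm1
  rw [div_lt_iff₀ hc] at hm1
  linarith

theorem main (H : Type*) [NormedAddCommGroup H] [InnerProductSpace ℝ H]
    (hH : ¬ FiniteDimensional ℝ H) (t : ℝ) (ht0 : 0 < t) (ht1 : t ≤ 1) :
    ∃ s : ℝ, 0 < s ∧ (1 + s) ^ (1 / (2 + s)) * (1 + 1 / (1 + s)) = 1 + t / s ∧
      (∀ u : ℝ, 0 < u → (1 + u) ^ (1 / (2 + u)) * (1 + 1 / (1 + u)) = 1 + t / u → u = s) ∧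
      ∃ c C : ℝ, 0 < c ∧ c ≤ C ∧ ∀ m : ℕ, 1 ≤ m →
        c * (m : ℝ) ^ (-(s / (2 * (2 + s)))) ≤ weakError H t m ∧
          weakError H t m ≤ C * (m : ℝ) ^ (-(s / (2 * (2 + s)))) := by
  obtain ⟨s, hs, hs1, ht⟩ := Tf_root ht0 ht1
  have hb := bounds H hH hs hs1.le ht0 ht1 ht
  refine ⟨s, hs, (root_iff' hs).2 ht, fun u hu hru => ?_, hb⟩
  rw [root_iff' hu] at hru
  have hu1 : u ≤ 1.16 := by
    by_contra hc
    linarith [Tf_big (not_le.1 hc).le]
  obtain ⟨c, C, hc, -, h1⟩ := hb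
  obtain ⟨c', C', hc', -, h2⟩ := bounds H hH hu hu1 ht0 ht1 hru
  have e1 := exponent_le hc fun m hm => (h1 m hm).1.trans (h2 m hm).2
  have e2 := exponent_le hc' fun m hm => (h2 m hm).1.trans (h1 m hm).2
  have e := le_antisymm e1 e2
  rw [div_eq_div_iff (by positivity) (by positivity)] at e
  linarith

end Pool.Agent.Lib.MP_19b6b2_an.W
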